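import Pool.Agent.XDF.Final
import Pool.Agent.XDE.Clean

/-!
# Tests for `k`-SAT with two sided error, better exponents: formulas, circuits
-/

set_option autoImplicit false

namespace Pool.XDF

open Finset MvPolynomial Pool.SatDet Pool.XDS Pool.XDE Pool.Agent.Helper59.CDT

open Classical in
/-- the theorem for polynomials `f ω` which are sums of products -/
theorem xdf_clean (d : ℕ) (hd : 2 ≤ d) : ∃ C : ℝ, 1 ≤ C ∧
    ∀ (F : Type) [Field F] (Ω : Type) [Fintype Ω] (l n S w w0 T : ℕ) (a b q : ℝ) (pr : Ω → ℝ)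
      (f : Ω → MvPolynomial (Clause n (d + 1)) F),
      1 ≤ n → 2 ≤ S → 1 ≤ w → 1 ≤ w0 → 1 ≤ T → 0 < a → a ≤ 1 → b * q ≤ a →
      (∀ ω, 0 ≤ pr ω) → ∑ ω, pr ω = 1 →
      (∀ ω, ∃ h : Fin T → Fin S → MvPolynomial (Clause n (d + 1)) F,
        (∀ i j, h i j ∈ Pool.Agent.Helper41.CD.Cls w0 w S l) ∧ f ω = ∑ i, ∏ j, h i j) →
      (∀ ω, (∀ m ∈ (f ω).support, ∀ c, m c ≤ 1) ∨ ((f ω).totalDegree ≤ n.choose (d + 1) ∧
        ∀ φ : Finset (Clause n (d + 1)), (¬ ∃ a : Fin n → Bool, ∀ c ∈ φ, Sats a c) →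
          onF φ (f ω) = 0)) →
      (∀ φ : Finset (Clause n (d + 1)), (¬ ∃ a : Fin n → Bool, ∀ c ∈ φ, Sats a c) →
        ∑ ω, (if onF φ (f ω) ≠ 0 then pr ω else 0) ≤ b) →
      (∀ φ : Finset (Clause n (d + 1)), (∃! a : Fin n → Bool, ∀ c ∈ φ, Sats a c) →
        a ≤ ∑ ω, if onF φ (f ω) ≠ 0 then pr ω else 0) →
      (n : ℝ) ≤ C * Real.log (2 * n * T / a) *
        (C * (Real.log S + (w + w0) * Real.log (2 * n))) ^
          ((1 + 2 / ((d + 1 : ℕ) : ℝ)) * ((Nat.fib (2 * l + 4) : ℝ) - 2) + 1 / ((d + 1 : ℕ) : ℝ)) ∨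
      q ≤ (C * (Real.log S + (w + w0) * Real.log (2 * n))) ^ ((Nat.fib (2 * l + 4) : ℝ) - 1) := by
  obtain ⟨C, hC, H⟩ := xdf d hd
  refine ⟨C, hC, ?_⟩
  intro F _ Ω _ l n S w w₀ T a b q p f hn hS hw hw0 hT ha ha1 hb hp hp1 hf hml hno hyes
  have hunsat : ∀ U : Finset (Clause n (d + 1)), ¬ SatP n (d + 1) U →
      ¬ ∃ a : Fin n → Bool, ∀ c ∈ Uᶜ, Sats a c := by
    rintro U hU ⟨a, ha⟩
    apply hU
    refine ⟨a, fun c hc => ?_⟩
    by_contra h
    exact hc (ha c (Finset.mem_compl.2 h))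
  choose h hh hfh using hf
  have key := H F Ω l n T S w w₀ a b q p h hn hT hS hw hw0 ha ha1 hb hp hp1 hh ?_ ?_ ?_
  · rw [mul_div_assoc]
    exact key
  · intro ω ν hν c
    rw [← hfh ω] at hν
    rcases hml ω with h1 | ⟨h1, h2⟩
    · exact h1 ν hν c
    · refine ml_of_degree ν (satP_support (fun U hU => ?_) ν hν) ((le_totalDegree hν).trans h1) c
      rw [rst_eq_onF]
      exact h2 _ (hunsat U hU)
  · intro U hU
    refine le_trans (le_of_eq (Finset.sum_congr rfl fun ω _ => ?_)) (hno Uᶜ (hunsat U hU))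
    rw [← hfh ω, rst_eq_onF]
  · intro U hU
    have h1 : ∃! a : Fin n → Bool, ∀ c ∈ Uᶜ, Sats a c := by
      obtain ⟨a, ha, hau⟩ := hU
      refine ⟨a, fun c hc => ha c (Finset.mem_compl.1 hc), fun b hb => hau b fun c hc => ?_⟩
      exact hb c (Finset.mem_compl.2 hc)
    refine (hyes Uᶜ h1).trans (le_of_eq (Finset.sum_congr rfl fun ω _ => ?_))
    rw [← hfh ω, rst_eq_onF]

/-- the numbers -/
theorem circ_num_min {C : ℝ} (hC : 1 ≤ C) {e p : ℝ} (he : 0 ≤ e) (hp : 0 < p) (k n s w N : ℕ)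
    (δ q : ℝ) (hk : 1 ≤ k) (hn : 1 ≤ n) (hs : 1 ≤ s) (hw : 1 ≤ w) (hN : N ≤ (2 * n) ^ k)
    (hδ : 0 < δ) (hδ1 : δ ≤ 1) (hq : 0 ≤ q)
    (h : (n : ℝ) ≤ C * Real.log (2 * n * (s + 1 : ℕ) / δ) *
      (C * (Real.log (s + N + 1 : ℕ) + (w + w) * Real.log (2 * n))) ^ e ∨
      q ≤ (C * (Real.log (s + N + 1 : ℕ) + (w + w) * Real.log (2 * n))) ^ p) :
    δ * Real.exp (1 / ((k + 2) * C) * min ((n : ℝ) ^ (1 / (e + 1))) (q ^ (1 / p))) ≤
      (2 * n : ℝ) ^ w * (s + n) := by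
  have hC0 : 0 < C := by linarith
  have hn1 : (1 : ℝ) ≤ n := by exact_mod_cast hn
  have hs1 : (1 : ℝ) ≤ s := by exact_mod_cast hs
  have hw1 : (1 : ℝ) ≤ w := by exact_mod_cast hw
  have hk1 : (1 : ℝ) ≤ k := by exact_mod_cast hk
  have he1 : 0 < e + 1 := by linarith
  have hsn : (0 : ℝ) < (s : ℝ) + n := by positivity
  set L := Real.log (2 * (n : ℝ)) with hL
  have hL0 : 0 ≤ L := Real.log_nonneg (by linarith)
  have hL2 : 0.6931 ≤ L := by
    have h1 : Real.log 2 ≤ L := Real.log_le_log (by norm_num) (by linarith)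
    have h2 := Real.log_two_gt_d9
    linarith
  set M := Real.log ((s : ℝ) + n) with hM
  have hM0 : 0 ≤ M := Real.log_nonneg (by linarith)
  set D := Real.log (1 / δ) with hD
  have hD0 : 0 ≤ D := Real.log_nonneg (by rw [le_div_iff₀ hδ]; linarith)
  set A := w * L + M + D with hA
  have hwL : L ≤ w * L := le_mul_of_one_le_left hL0 hw1
  have hA0 : 0 < A := by
    rw [hA]
    linarith
  have e1 : Real.log (2 * n * (s + 1 : ℕ) / δ) ≤ A := by
    have e2 : 2 * (n : ℝ) * (s + 1 : ℕ) / δ ≤ (2 * n) * (s + n) * (1 / δ) := by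
      rw [mul_one_div]
      apply div_le_div_of_nonneg_right _ hδ.le
      apply mul_le_mul le_rfl _ (by positivity) (by positivity)
      push_cast
      linarith
    refine (Real.log_le_log (by positivity) e2).trans ?_
    rw [Real.log_mul (by positivity) (by positivity), Real.log_mul (by positivity) (by positivity)]
    linarith
  have e3 : Real.log (s + N + 1 : ℕ) ≤ k * L + M := by
    have e4 : ((s + N + 1 : ℕ) : ℝ) ≤ (2 * n) ^ k * (s + n) := by
      have e5 : (N : ℝ) ≤ (2 * n) ^ k := by exact_mod_cast hN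
      have e6 : (2 : ℝ) ≤ (2 * n) ^ k := by
        calc (2 : ℝ) ≤ 2 * n := by linarith
          _ = (2 * n) ^ 1 := (pow_one _).symm
          _ ≤ (2 * n) ^ k := pow_le_pow_right₀ (by linarith) hk
      push_cast
      nlinarith [mul_le_mul_of_nonneg_right e6 (show (0 : ℝ) ≤ s by positivity),
        mul_le_mul_of_nonneg_left hn1 (show (0 : ℝ) ≤ (2 * n) ^ k by positivity)]
    refine (Real.log_le_log (by positivity) e4).trans ?_
    rw [Real.log_mul (by positivity) hsn.ne', Real.log_pow]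
  have hkA : 1 * (k * L + M) ≤ k * A := by
    rw [one_mul, hA]
    nlinarith
  have e7 : Real.log (s + N + 1 : ℕ) + (w + w) * L ≤ (k + 2) * A := by
    have h2 : (w : ℝ) * L ≤ A := by rw [hA]; linarith
    nlinarith
  have h0 : 0 ≤ Real.log (s + N + 1 : ℕ) + (w + w) * L := by
    have : 0 ≤ Real.log (s + N + 1 : ℕ) := Real.log_natCast_nonneg _
    positivity
  have e8 : C * (Real.log (s + N + 1 : ℕ) + (w + w) * L) ≤ (k + 2) * C * A := by
    calc C * (Real.log (s + N + 1 : ℕ) + (w + w) * L) ≤ C * ((k + 2) * A) :=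
          mul_le_mul_of_nonneg_left e7 hC0.le
      _ = (k + 2) * C * A := by ring
  have hx0 : 0 < (k + 2) * C * A := by positivity
  have hmin : min ((n : ℝ) ^ (1 / (e + 1))) (q ^ (1 / p)) ≤ (k + 2) * C * A := by
    rcases h with h | h
    · refine (min_le_left _ _).trans ?_
      have h1 : (n : ℝ) ≤ ((k + 2) * C * A) ^ (e + 1) := by
        refine h.trans ?_
        have e9 : C * Real.log (2 * n * (s + 1 : ℕ) / δ) ≤ (k + 2) * C * A := by
          have e10 : C * Real.log (2 * n * (s + 1 : ℕ) / δ) ≤ C * A :=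
            mul_le_mul_of_nonneg_left e1 hC0.le
          have e11 : C * A ≤ (k + 2) * (C * A) :=
            le_mul_of_one_le_left (by positivity) (by linarith)
          linarith
        calc C * Real.log (2 * n * (s + 1 : ℕ) / δ) *
              (C * (Real.log (s + N + 1 : ℕ) + (w + w) * L)) ^ e
            ≤ (k + 2) * C * A * ((k + 2) * C * A) ^ e :=
              mul_le_mul e9 (Real.rpow_le_rpow (by positivity) e8 he)
                (Real.rpow_nonneg (by positivity) _) hx0.le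
          _ = ((k + 2) * C * A) ^ (e + 1) := by
            rw [Real.rpow_add hx0, Real.rpow_one, mul_comm]
      calc (n : ℝ) ^ (1 / (e + 1)) ≤ (((k + 2) * C * A) ^ (e + 1)) ^ (1 / (e + 1)) :=
            Real.rpow_le_rpow (by positivity) h1 (by positivity)
        _ = (k + 2) * C * A := by
            rw [← Real.rpow_mul hx0.le, mul_one_div_cancel he1.ne', Real.rpow_one]
    · refine (min_le_right _ _).trans ?_
      have h1 : q ≤ ((k + 2) * C * A) ^ p :=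
        h.trans (Real.rpow_le_rpow (by positivity) e8 hp.le)
      calc q ^ (1 / p) ≤ (((k + 2) * C * A) ^ p) ^ (1 / p) :=
            Real.rpow_le_rpow hq h1 (by positivity)
        _ = (k + 2) * C * A := by
            rw [← Real.rpow_mul hx0.le, mul_one_div_cancel hp.ne', Real.rpow_one]
  have h3 : 1 / ((k + 2) * C) * min ((n : ℝ) ^ (1 / (e + 1))) (q ^ (1 / p)) ≤ A := by
    rw [div_mul_eq_mul_div, one_mul, div_le_iff₀ (by positivity)]
    linarith
  have h4 : Real.exp A = (2 * n : ℝ) ^ w * (s + n) * (1 / δ) := by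
    rw [hA, Real.exp_add, Real.exp_add, hM, hD, Real.exp_log hsn, Real.exp_log (by positivity), hL,
      Real.exp_nat_mul, Real.exp_log (by positivity)]
  have h5 := Real.exp_le_exp.2 h3
  rw [h4] at h5
  calc δ * Real.exp (1 / ((k + 2) * C) * min ((n : ℝ) ^ (1 / (e + 1))) (q ^ (1 / p)))
      ≤ δ * ((2 * n : ℝ) ^ w * (s + n) * (1 / δ)) := mul_le_mul_of_nonneg_left h5 hδ.le
    _ = (2 * n : ℝ) ^ w * (s + n) := by
        field_simp

open Classical in
/-- **circuits of constant depth with arbitrary gates of fan-in `w`, two sided error** -/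
theorem xdf_circ (d : ℕ) (hd : 2 ≤ d) : ∃ c : ℝ, 0 < c ∧
    ∀ (F : Type) [Field F] (Ω : Type) [Fintype Ω] (l n s w : ℕ) (a b q : ℝ) (pr : Ω → ℝ)
      (f : Ω → MvPolynomial (Clause n (d + 1)) F),
      1 ≤ n → 1 ≤ s → 1 ≤ w → 0 < a → a ≤ 1 → 0 ≤ q → b * q ≤ a → (∀ ω, 0 ≤ pr ω) →
      ∑ ω, pr ω = 1 →
      (∀ ω, ∃ P : Fin s → MvPolynomial (Clause n (d + 1)) F,
        Pool.QPIT.IsCircuitW (l + 1) w P ∧ ∃ g, P g = f ω) →
      (∀ ω, (∀ m ∈ (f ω).support, ∀ c, m c ≤ 1) ∨ ((f ω).totalDegree ≤ n.choose (d + 1) ∧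
        ∀ φ : Finset (Clause n (d + 1)), (¬ ∃ a : Fin n → Bool, ∀ c ∈ φ, Sats a c) →
          onF φ (f ω) = 0)) →
      (∀ φ : Finset (Clause n (d + 1)), (¬ ∃ a : Fin n → Bool, ∀ c ∈ φ, Sats a c) →
        ∑ ω, (if onF φ (f ω) ≠ 0 then pr ω else 0) ≤ b) →
      (∀ φ : Finset (Clause n (d + 1)), (∃! a : Fin n → Bool, ∀ c ∈ φ, Sats a c) →
        a ≤ ∑ ω, if onF φ (f ω) ≠ 0 then pr ω else 0) →
      a * Real.exp (c * min
        ((n : ℝ) ^ (((d + 1 : ℕ) : ℝ) /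
          ((((d + 1 : ℕ) : ℝ) + 2) * (Nat.fib (2 * (l + 1) + 2) : ℝ) - ((d + 1 : ℕ) : ℝ) - 3)))
        (q ^ (1 / ((Nat.fib (2 * (l + 1) + 2) : ℝ) - 1)))) ≤
        (2 * n : ℝ) ^ w * (s + n) := by
  obtain ⟨C, hC, H⟩ := xdf_clean d hd
  refine ⟨1 / (((d + 1 : ℕ) + 2) * C), by positivity, ?_⟩
  intro F _ Ω _ l n s w a b q pr f hn hs hw ha ha1 hq hb hpr hpr1 hf hml hno hyes
  have h3 : 3 ≤ Nat.fib (2 * l + 4) := by
    have : Nat.fib 4 ≤ Nat.fib (2 * l + 4) := Nat.fib_mono (by omega)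
    exact this
  have h3r : (3 : ℝ) ≤ Nat.fib (2 * l + 4) := by exact_mod_cast h3
  obtain ⟨K, hK⟩ : ∃ K : ℝ, K = ((d + 1 : ℕ) : ℝ) := ⟨_, rfl⟩
  have hK0 : 0 < K := by rw [hK]; positivity
  have he0 : 0 ≤ (1 + 2 / K) * ((Nat.fib (2 * l + 4) : ℝ) - 2) + 1 / K := by
    have : 0 ≤ (Nat.fib (2 * l + 4) : ℝ) - 2 := by linarith
    positivity
  have e1 : K / ((K + 2) * (Nat.fib (2 * (l + 1) + 2) : ℝ) - K - 3) =
      1 / ((1 + 2 / K) * ((Nat.fib (2 * l + 4) : ℝ) - 2) + 1 / K + 1) := by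
    rw [show 2 * (l + 1) + 2 = 2 * l + 4 by ring]
    have h4 : (1 + 2 / K) * ((Nat.fib (2 * l + 4) : ℝ) - 2) + 1 / K + 1 =
        ((K + 2) * (Nat.fib (2 * l + 4) : ℝ) - K - 3) / K := by
      field_simp
      ring
    rw [h4, one_div_div]
  have hN := card_clause_le n (d + 1)
  have h1 := H F Ω l n (s + Fintype.card (Clause n (d + 1)) + 1) w w (s + 1) a b q pr f hn
    (by omega) hw hw (by omega) ha ha1 hb hpr hpr1 (fun ω => ?_) hml hno hyes
  · have h2 := circ_num_min hC (e := (1 + 2 / K) * ((Nat.fib (2 * l + 4) : ℝ) - 2) + 1 / K)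
      (p := (Nat.fib (2 * l + 4) : ℝ) - 1) he0 (by linarith) (d + 1) n s w _ a q (by omega)
      hn hs hw hN ha ha1 hq (by rw [hK]; exact h1)
    rw [← hK, e1, show 2 * (l + 1) + 2 = 2 * l + 4 by ring]
    rw [hK] at h2 ⊢
    exact h2
  · obtain ⟨P, hP, g, hg⟩ := hf ω
    obtain ⟨h, hh, hhg⟩ := Pool.QPIT.circuit_sumW hw le_rfl hP g
    exact ⟨h, hh, by rw [hhg, hg]⟩

end Pool.XDF
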