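import Pool.Agent.XDF.Sat

/-!
# Tests for `k`-SAT with two sided error: the core inequality, with a union bound in every chunk
-/

set_option autoImplicit false

namespace Pool.XDF

open Finset Pool.XD Pool.XDA Pool.XDS Pool.XDE Pool.SatDet Pool.Agent.Helper41.CD
  Pool.Agent.Helper59.CDT

section

variable {g kb l : ℕ} {ty : Pool.XDA.Lt kb l → Bool} {LU LV r E : ℕ}
  (c : Ch ty (ltS (k := kb) l) LU LV r E)

/-- the input in which the letter `x` is required -/
def BY (p : Fin g → c.Pr) (x : Fin g × Pool.XDA.Lt kb l) : Set (Fin g × Pool.XDA.Lt kb l) :=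
  if ty x.2 = true then {y | ty y.2 = true ∨ 1 ≤ (c.Q (p y.1)).1 y.2} \ {x}
  else {y | ty y.2 = false ∨ 1 ≤ (c.R (p y.1)).1 y.2} \ {x}

theorem unsat_BY {n d : ℕ} (G : Gad n d (gS (g := g) (ltS (k := kb) l))) (p : Fin g → c.Pr)
    (x : Fin g × Pool.XDA.Lt kb l) (hx : x.2 ∈ ltS (k := kb) l (p x.1).1.1) :
    ¬ SatP n (d + 1) (UB G (BY c p x)) := by
  apply unsat_UB
  intro t
  by_cases htp : t = fun i => (p i).1.1
  · subst htp
    refine ⟨x, (mem_gS _ _ _).2 hx, ?_⟩
    simp only [BY]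
    split_ifs <;> exact fun h => h.2 rfl
  · simp only [BY]
    split_ifs with hxty
    · have h2 : ¬ ∀ i, ∀ y ∈ ltS l (t i), ty y = false → 1 ≤ (c.Q (p i)).1 y :=
        fun h => htp (funext fun i => c.wordV (p i) (t i) (h i))
      push Not at h2
      obtain ⟨i, y, h3, h4, h5⟩ := h2
      refine ⟨(i, y), (mem_gS _ _ _).2 h3, fun h => ?_⟩
      rcases h.1 with h6 | h6
      · simp only [h4] at h6
        exact absurd h6 (by simp)
      · exact absurd h6 (not_le.2 h5)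
    · have h2 : ¬ ∀ i, ∀ y ∈ ltS l (t i), ty y = true → 1 ≤ (c.R (p i)).1 y :=
        fun h => htp (funext fun i => c.wordU (p i) (t i) (h i))
      push Not at h2
      obtain ⟨i, y, h3, h4, h5⟩ := h2
      refine ⟨(i, y), (mem_gS _ _ _).2 h3, fun h => ?_⟩
      rcases h.1 with h6 | h6
      · simp only [h4] at h6
        exact absurd h6 (by simp)
      · exact absurd h6 (not_le.2 h5)

variable {A0 : Finset (Fin g)} (p0 : {i // i ∉ A0} → c.Pr)

/-- the pairs with the given coordinates outside `A0` -/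
def glue (q : {i // i ∈ A0} → c.Pr) (i : Fin g) : c.Pr :=
  if h : i ∈ A0 then q ⟨i, h⟩ else p0 ⟨i, h⟩

theorem glue_in (q : {i // i ∈ A0} → c.Pr) (i : {i // i ∈ A0}) : glue c p0 q i.1 = q i := by
  rw [glue, dif_pos i.2]

theorem glue_out (q : {i // i ∈ A0} → c.Pr) (i : Fin g) (h : i ∉ A0) :
    glue c p0 q i = p0 ⟨i, h⟩ := by
  rw [glue, dif_neg h]

/-- the letters outside `A0` which are not set to `0` -/
def live (x : Fin g × Pool.XDA.Lt kb l) : Prop :=
  ∃ h : x.1 ∉ A0, (ty x.2 = true ∧ 1 ≤ (c.R (p0 ⟨x.1, h⟩)).1 x.2) ∨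
    (ty x.2 = false ∧ 1 ≤ (c.Q (p0 ⟨x.1, h⟩)).1 x.2)

/-- letters of the chunks in `A0`, constants outside -/
def sel {n d g' : ℕ} (G : Gad n d (gS (g := g) (ltS (k := kb) l)))
    (e : Fin g' ≃ {i // i ∈ A0}) : Sel n d (Fin g' × Pool.XDA.Lt kb l) where
  lt := fun x => G.lt ((e x.1).1, x.2)
  Z := {C | C ∈ G.Z ∨ ∃ x, live c p0 x ∧ (∃ t, x ∈ gS (g := g) (ltS (k := kb) l) t) ∧ C = G.lt x}
  ok := {x | ∃ t, (((e x.1).1, x.2) : Fin g × Pool.XDA.Lt kb l) ∈ gS (g := g) (ltS (k := kb) l) t}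
  inj := by
    intro x y hxy
    have h1 := G.inj hxy
    rw [Prod.mk.injEq] at h1
    exact Prod.ext (e.injective (Subtype.ext h1.1)) h1.2
  notZ := by
    rintro x (h | ⟨y, ⟨h1, -⟩, -, h2⟩)
    · exact G.notZ _ h
    · have h3 := G.inj h2
      apply h1
      rw [← h3]
      exact (e x.1).2

variable {n d g' : ℕ} {F : Type} [Field F] (G : Gad n d (gS (g := g) (ltS (k := kb) l)))
  (e : Fin g' ≃ {i // i ∈ A0})

/-- a letter which is required -/
theorem req {f : MvPolynomial (Clause n (d + 1)) F} (q : {i // i ∈ A0} → c.Pr)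
    {j : Fin g'} {y : Pool.XDA.Lt kb l}
    (h0 : rst (UB G (BY c (glue c p0 q) ((e j).1, y))) f = 0)
    {μ : Clause n (d + 1) →₀ ℕ} (hμ : μ ∈ f.support) (hadm : ∀ C ∈ μ.support, adm (sel c p0 G e) C)
    (hB : ∀ x : Fin g' × Pool.XDA.Lt kb l, lx (sel c p0 G e) μ x ≠ 0 →
      if ty y = true then ty x.2 = true ∨ 1 ≤ (c.Q (q (e x.1))).1 x.2
      else ty x.2 = false ∨ 1 ≤ (c.R (q (e x.1))).1 x.2) :
    lx (sel c p0 G e) μ (j, y) ≠ 0 := by
  intro hzero
  refine rst_ne_zero hμ (fun C hC => ?_) h0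
  rw [mem_UB]
  rcases hadm C hC with (h1 | ⟨x, ⟨h2, h3⟩, h4, h5⟩) | ⟨x, h1, h2⟩
  · exact Or.inl h1
  · refine Or.inr ⟨x, ?_, h4, h5⟩
    have hne : x ≠ ((e j).1, y) := by
      rintro rfl
      exact h2 (e j).2
    simp only [BY]
    split_ifs with h6
    · refine ⟨?_, hne⟩
      rcases h3 with ⟨h7, -⟩ | ⟨-, h8⟩
      · exact Or.inl h7
      · right
        rw [glue_out c p0 q _ h2]
        exact h8
    · refine ⟨?_, hne⟩
      rcases h3 with ⟨-, h8⟩ | ⟨h7, -⟩
      · right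
        rw [glue_out c p0 q _ h2]
        exact h8
      · exact Or.inl h7
  · obtain ⟨t, ht⟩ := h1
    refine Or.inr ⟨((e x.1).1, x.2), ?_, ⟨t, ht⟩, h2⟩
    have hxne : lx (sel c p0 G e) μ x ≠ 0 := by
      rw [lx_apply]
      have : μ C ≠ 0 := Finsupp.mem_support_iff.1 hC
      rw [h2] at this
      exact this
    have hne : (((e x.1).1, x.2) : Fin g × Pool.XDA.Lt kb l) ≠ ((e j).1, y) := by
      intro h3
      rw [Prod.mk.injEq] at h3
      have h4 : x = (j, y) := Prod.ext (e.injective (Subtype.ext h3.1)) h3.2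
      rw [h4] at hxne
      exact hxne hzero
    have h3 := hB x hxne
    simp only [BY]
    split_ifs with h6
    · rw [if_pos h6] at h3
      refine ⟨?_, hne⟩
      rcases h3 with h7 | h7
      · exact Or.inl h7
      · right
        show 1 ≤ (c.Q (glue c p0 q (e x.1).1)).1 x.2
        rw [glue_in]
        exact h7
    · rw [if_neg h6] at h3
      refine ⟨?_, hne⟩
      rcases h3 with h7 | h7
      · exact Or.inl h7
      · right
        show 1 ≤ (c.R (glue c p0 q (e x.1).1)).1 x.2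
        rw [glue_in]
        exact h7

end

open Classical in
/-- **the core inequality** for random tests with two sided error -/
theorem sat_core {n d g kb l k T S w w0 : ℕ} {F : Type} [Field F] {HU HV : ℝ} {τ : ℕ → Bool}
    (hkb : 1 ≤ kb) (hHU : 1 < HU) (hHV : 1 < HV) (hbU : Bal τ true HU)
    (hbV : Bal τ false HV)
    (hlU : 4 * ((kb + l : ℕ) : ℝ) ^ 2 * HU ≤ 2 ^ l) (hlV : 4 * ((kb + l : ℕ) : ℝ) ^ 2 * HV ≤ 2 ^ l)
    (hg : 1 ≤ g) (G : Gad n d (gS (g := g) (ltS (k := kb) l)))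
    {Ω : Type} [Fintype Ω] (pr : Ω → ℝ) (h0 : ∀ ω, 0 ≤ pr ω) (h1 : ∑ ω, pr ω = 1)
    (f : Ω → Fin T → Fin S → MvPolynomial (Clause n (d + 1)) F)
    (hf : ∀ ω i j, f ω i j ∈ Cls w0 w S k)
    (hS : 1 ≤ S) (hw : 1 ≤ w) (hw0 : 1 ≤ w0)
    (hml : ∀ ω, ∀ μ ∈ (∑ i, ∏ j, f ω i j).support, ∀ c, μ c ≤ 1) {a b : ℝ} (ha : 0 < a)
    (hD : 4 * ((kb + l : ℕ) : ℝ) * b ≤ a)
    (hno : ∀ U : Finset (Clause n (d + 1)), ¬ SatP n (d + 1) U →
      ∑ ω, (if rst U (∑ i, ∏ j, f ω i j) ≠ 0 then pr ω else 0) ≤ b)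
    (hyes : ∀ s : Fin g → Fin kb → Bool,
      a ≤ ∑ ω, if rst (Uw G s) (∑ i, ∏ j, f ω i j) ≠ 0 then pr ω else 0)
    {X Y : ℕ → ℝ} (hX : ∀ i, 0 < X i) (hY : ∀ i, 0 < Y i) (hX0 : X 0 = 1) (hY0 : Y 0 = 1)
    (hnum : ∀ g' ≤ g, ∀ i ≤ 2 * k, NumD (g' * (kb + l)) (S * ((g' * (kb + l) : ℕ) + 1) ^
      (8 * (w0 + w) + 16)) HU HV (X i) (Y i) (X (i + 1)) (Y (i + 1))) :
    ∃ g' r E : ℕ, g' ≤ g ∧ g ≤ 2 * g' ∧ r = cnt τ true 0 (kb + l) ∧
      E = cnt τ false 0 (kb + l) ∧ r + E = kb + l ∧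
      a / 2 * (2 : ℝ) ^ (g' * kb) ≤ 2 ^ g * ((4 * (r + 1) * (E + 1)) ^ g' *
        (T * (((g' * (kb + l) : ℕ) + 1 : ℝ) ^ 16 *
        (X (2 * k + 1) ^ (g' * r) * Y (2 * k + 1) ^ (g' * E))))) := by
  obtain ⟨r, hr⟩ : ∃ r, r = cnt τ true 0 (kb + l) := ⟨_, rfl⟩
  obtain ⟨E, hE⟩ : ∃ E, E = cnt τ false 0 (kb + l) := ⟨_, rfl⟩
  obtain ⟨h1U, h1V, hrE, LU, LV, hL1, hL2, hL3, hL4, hL5⟩ :=
    exists_params hkb hHU hHV hbU hbV hlU hlV hr hE
  have hkl : (kb : ℝ) ^ 2 ≤ ((kb + l : ℕ) : ℝ) ^ 2 := by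
    apply pow_le_pow_left₀ (Nat.cast_nonneg _)
    exact_mod_cast Nat.le_add_right kb l
  have hsU := ltS_sparse (k := kb) (l := l) τ true hHU.le hbU (le_trans (by gcongr) hlU)
  have hsV := ltS_sparse (k := kb) (l := l) τ false hHV.le hbV (le_trans (by gcongr) hlV)
  have hcU : ∀ s : Fin kb → Bool, ((ltS l s).filter fun x => lty τ x = true).card = r := fun s => by
    rw [hr]; exact ltS_card τ true s
  have hcV : ∀ s : Fin kb → Bool, ((ltS l s).filter fun x => lty τ x = false).card = E := fun s => by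
    rw [hE]; exact ltS_card τ false s
  obtain ⟨ty, hty⟩ : ∃ ty : Pool.XDA.Lt kb l → Bool, ty = lty τ := ⟨_, rfl⟩
  rw [← hty] at h1U h1V hL2 hL3 hL4 hL5 hsU hsV hcU hcV
  obtain ⟨c, hc⟩ := exists_ch (LU := LU) (LV := LV) (r := r) (E := E) ty (ltS (k := kb) l)
    hL1 hcU hcV hHU.le hHV.le hL2 hL3 hsU hsV
  -- the number of the letters of a word
  have hletters : ∀ s : Fin kb → Bool, (ltS l s).card = kb + l := by
    intro s
    have e2 := card_filter_add_card_filter_not (s := ltS l s) (fun x => ty x = true)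
    have e3 : ((ltS l s).filter fun x => ¬ ty x = true) =
        (ltS l s).filter fun x => ty x = false := by
      apply filter_congr
      intro x _
      simp
    rw [e3, hcU, hcV] at e2
    omega
  have hmU' : (0 : ℝ) < (nU ty).multichoose (LU - r) := by
    rw [Nat.multichoose_eq]
    exact_mod_cast Nat.choose_pos (by omega)
  have hmV : (0 : ℝ) < (nV ty).multichoose LV := by
    rw [Nat.multichoose_eq]
    exact_mod_cast Nat.choose_pos (by omega)
  have hcPr := card_Pr c hc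
  have hPr0 : (0 : ℝ) < Fintype.card c.Pr := by
    refine lt_of_lt_of_le ?_ hcPr
    have : (0 : ℝ) < Fintype.card (Fin kb → Bool) := by exact_mod_cast Fintype.card_pos
    push_cast
    positivity
  have hne : Nonempty c.Pr := by
    rw [← Fintype.card_pos_iff]
    exact_mod_cast hPr0
  -- a good choice
  set acc : Ω → (Fin g → c.Pr) → Prop := fun ω p =>
    rst (Uw G fun i => (p i).1.1) (∑ i, ∏ j, f ω i j) ≠ 0 with hacc
  set bad : Ω → (Fin g → c.Pr) → Fin g → Pool.XDA.Lt kb l → Prop := fun ω p i y =>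
    rst (UB G (BY c p (i, y))) (∑ i, ∏ j, f ω i j) ≠ 0 with hbad
  set Ag : Ω → (Fin g → c.Pr) → Finset (Fin g) := fun ω p =>
    univ.filter fun i => ∀ y ∈ ltS (k := kb) l (p i).1.1, ¬ bad ω p i y with hAg
  have hprob : ∀ p : Fin g → c.Pr, a / 2 ≤ ∑ ω, if acc ω p ∧ g ≤ 2 * (Ag ω p).card
      then pr ω else 0 := by
    intro p
    have e1 := chunk_prob (α := Fin g) pr h0 (by rw [Fintype.card_fin]; exact hg)
      (fun i => ltS (k := kb) l (p i).1.1) (fun i => hletters _) (fun ω => acc ω p)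
      (fun ω i y => bad ω p i y) (fun ω => Ag ω p)
      (fun ω i => by simp only [hAg, mem_filter, mem_univ, true_and]) hD
      (hyes fun i => (p i).1.1) fun i y hy => hno _ (unsat_BY c G p (i, y) hy)
    rw [Fintype.card_fin] at e1
    exact e1
  obtain ⟨ω, hω⟩ := exists_many (W := Fin g → c.Pr) pr h0 h1
    (fun ω p => acc ω p ∧ g ≤ 2 * (Ag ω p).card) (a / 2) hprob
  obtain ⟨A0, ⟨p1, ⟨-, hp1⟩, hA1⟩, p0, hcount⟩ := chunk_pigeon
    (fun p => acc ω p ∧ g ≤ 2 * (Ag ω p).card) (Ag ω) (a := a / 2) (by positivity) hω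
  rw [hA1] at hp1
  obtain ⟨g', hg'⟩ : ∃ g', g' = A0.card := ⟨_, rfl⟩
  rw [← hg'] at hp1 hcount
  have hgg : g' ≤ g := by
    have := card_le_univ A0
    rw [Fintype.card_fin] at this
    omega
  refine ⟨g', r, E, hgg, hp1, hr, hE, hrE, ?_⟩
  -- the chunks of `A0`
  obtain ⟨e⟩ : Nonempty (Fin g' ≃ {i // i ∈ A0}) :=
    ⟨Fintype.equivOfCardEq (by rw [Fintype.card_fin, Fintype.card_coe, hg'])⟩
  set good : ({i // i ∈ A0} → c.Pr) → Prop := fun q => acc ω (glue c p0 q) ∧
    ∀ i ∈ A0, ∀ y ∈ ltS (k := kb) l (glue c p0 q i).1.1, ¬ bad ω (glue c p0 q) i y with hgood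
  have hcount' : a / 2 * (Fintype.card c.Pr : ℝ) ^ g' ≤ 2 ^ g *
      ((univ.filter good).card : ℝ) := by
    refine hcount.trans (mul_le_mul_of_nonneg_left ?_ (by positivity))
    apply Nat.cast_le.2
    apply card_le_card
    intro q hq
    rw [mem_filter] at hq ⊢
    refine ⟨mem_univ _, hq.2.1.1, fun i hi => ?_⟩
    have h3 : i ∈ Ag ω (glue c p0 q) := by
      have h4 : Ag ω (glue c p0 q) = A0 := hq.2.2
      rw [h4]
      exact hi
    exact (mem_filter.1 h3).2
  set fp := ∑ i, ∏ j, f ω i j with hfp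
  -- rejected inputs
  have hrej : ∀ q : {q // good q}, ∀ j, ∀ y ∈ ltS (k := kb) l (q.1 (e j)).1.1,
      rst (UB G (BY c (glue c p0 q.1) ((e j).1, y))) fp = 0 := by
    intro q j y hy
    have h3 := q.2.2 (e j).1 (e j).2 y (by rw [glue_in]; exact hy)
    simp only [hbad] at h3
    push Not at h3
    exact h3
  have hcnt := count_iso (I := {q // good q}) ty (ltS (k := kb) l) (r := r) (E := E) (g := g')
    hL1 hcU hcV hHU.le hHV.le h1U h1V hL2 hL4 (fun i j => tst (sel c p0 G e) (f ω i j))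
    (fun i j => tst_cls _ (hf ω i j)) hS hw hw0 (fun q j => c.R (q.1 (e j)))
    (fun q j => c.Q (q.1 (e j))) (fun q j => (q.1 (e j)).1.1) ?_
    (fun q q' s hA hgp => ?_)
    (fun q => c.gap_self fun j => q.1 (e j)) ?_ hX hY hX0 hY0 (by rw [hrE]; exact hnum g' hgg)
  · -- the conclusion
    have hcI : (Fintype.card {q // good q} : ℝ) = ((univ.filter good).card : ℝ) := by
      rw [Fintype.card_subtype]
    rw [hcI, hrE] at hcnt
    have hX1 := hX (2 * k + 1)
    have hY1 := hY (2 * k + 1)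
    have key := combine' (g := g') (kb := kb) (r := r) (E := E) (HU := HU)
      (κ := T * (((g' * (kb + l) : ℕ) + 1 : ℝ) ^ 16 *
        (X (2 * k + 1) ^ (g' * r) * Y (2 * k + 1) ^ (g' * E))))
      (mU := (nU ty).multichoose LU) (mU' := (nU ty).multichoose (LU - r))
      (mV := (nV ty).multichoose LV) (card := ((univ.filter good).card : ℝ)) (a := a / 2 / 2 ^ g)
      (by linarith) hmU' hmV (by positivity) (by positivity) ?_ ?_ hL5 (Nat.cast_nonneg _)
    · have h3 : (0 : ℝ) < 2 ^ g := by positivity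
      rw [div_mul_eq_mul_div, div_le_iff₀ h3] at key
      linarith
    · have h3 : (0 : ℝ) < 2 ^ g := by positivity
      rw [div_mul_eq_mul_div, div_le_iff₀ h3]
      refine le_trans ?_ (hcount'.trans (le_of_eq (mul_comm _ _)))
      apply mul_le_mul_of_nonneg_left _ (by positivity)
      have h4 : (Fintype.card (Fin kb → Bool) : ℝ) = 2 ^ kb := by
        rw [Fintype.card_fun, Fintype.card_bool, Fintype.card_fin]
        push_cast
        rfl
      rw [h4] at hcPr
      calc (2 : ℝ) ^ (g' * kb) * ((nU ty).multichoose (LU - r) * (nV ty).multichoose LV / 2) ^ g' =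
            (2 ^ kb * ((((nU ty).multichoose (LU - r) * (nV ty).multichoose LV : ℕ) : ℝ) / 2)) ^ g'
            := by
              rw [mul_pow, pow_mul', Nat.cast_mul]
        _ ≤ _ := pow_le_pow_left₀ (by positivity) hcPr _
    · refine hcnt.trans (le_of_eq ?_)
      push_cast
      ring
  · -- the monomials of the entries contain a word
    intro q q' hA hne'
    rw [← tst_sum_prod] at hne'
    obtain ⟨μ, hμ, hadm, hlx⟩ := (mem_support_tst _ _ _).1 (MvPolynomial.mem_support_iff.2 hne')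
    set m := gap (cty ty g') (glu fun j => (c.R (q.1 (e j))).1) (glu fun j => (c.Q (q'.1 (e j))).1)
      with hmdef
    have hap : ∀ x : Fin g' × Pool.XDA.Lt kb l, m x = if ty x.2 then (c.R (q.1 (e x.1))).1 x.2 -
        (c.Q (q'.1 (e x.1))).1 x.2 else (c.Q (q'.1 (e x.1))).1 x.2 - (c.R (q.1 (e x.1))).1 x.2 := by
      intro x
      rw [hmdef, gap_apply]
      rfl
    have hmU : ∀ x : Fin g' × Pool.XDA.Lt kb l, m x ≠ 0 →
        ty x.2 = false ∨ 1 ≤ (c.R (q.1 (e x.1))).1 x.2 := by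
      intro x hx
      rw [hap] at hx
      cases h3 : ty x.2
      · exact Or.inl rfl
      · rw [h3, if_pos rfl] at hx
        right
        omega
    have hmV' : ∀ x : Fin g' × Pool.XDA.Lt kb l, m x ≠ 0 →
        ty x.2 = true ∨ 1 ≤ (c.Q (q'.1 (e x.1))).1 x.2 := by
      intro x hx
      rw [hap] at hx
      cases h3 : ty x.2
      · rw [h3, if_neg (by simp)] at hx
        right
        omega
      · exact Or.inl rfl
    have hreqV : ∀ j, ∀ y ∈ ltS (k := kb) l (q.1 (e j)).1.1, ty y = false → m (j, y) ≠ 0 := by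
      intro j y hy hyty
      rw [← hlx]
      refine req c p0 G e q.1 (hrej q j y hy) hμ hadm fun x hx => ?_
      rw [hyty, if_neg (by simp)]
      rw [hlx] at hx
      exact hmU x hx
    have hreqU : ∀ j, ∀ y ∈ ltS (k := kb) l (q'.1 (e j)).1.1, ty y = true → m (j, y) ≠ 0 := by
      intro j y hy hyty
      rw [← hlx]
      refine req c p0 G e q'.1 (hrej q' j y hy) hμ hadm fun x hx => ?_
      rw [hyty, if_pos rfl]
      rw [hlx] at hx
      exact hmV' x hx
    have hsame : ∀ j, (q.1 (e j)).1.1 = (q'.1 (e j)).1.1 := by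
      intro j
      refine c.wordV (q'.1 (e j)) _ fun y hy hyty => ?_
      rcases hmV' (j, y) (hreqV j y hy hyty) with h3 | h3
      · simp only [hyty] at h3
        exact absurd h3 (by simp)
      · exact h3
    refine ⟨fun j => (q.1 (e j)).1.1, fun x => ?_⟩
    obtain ⟨j, y⟩ := x
    rw [cmon_ap]
    split_ifs with h2
    · refine Nat.one_le_iff_ne_zero.2 ?_
      cases h5 : ty y
      · exact hreqV j y h2 h5
      · rw [hsame j] at h2
        exact hreqU j y h2 h5
    · exact Nat.zero_le _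
  · -- the entries are isolated
    have h3 := c.iso (fun j => q.1 (e j)) (fun j => q'.1 (e j)) s hA hgp
    apply Subtype.ext
    funext i
    obtain ⟨j, rfl⟩ := e.surjective i
    exact congrFun h3 j
  · -- the coefficient of the word
    intro q
    rw [← tst_sum_prod]
    apply MvPolynomial.mem_support_iff.1
    rw [mem_support_tst]
    obtain ⟨μ, hμ, hsup⟩ := exists_mono q.2.1
    have hUw : ∀ C ∈ μ.support, C ∈ G.Z ∨
        ∃ x : Fin g × Pool.XDA.Lt kb l, x.2 ∈ ltS (k := kb) l (glue c p0 q.1 x.1).1.1 ∧ C = G.lt x := by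
      intro C hC
      rcases (mem_filter.1 (hsup hC)).2 with h3 | ⟨x, hx, h3⟩
      · exact Or.inl h3
      · exact Or.inr ⟨x, (mem_gS _ _ _).1 hx, h3⟩
    have hadm : ∀ C ∈ μ.support, adm (sel c p0 G e) C := by
      intro C hC
      rcases hUw C hC with h3 | ⟨x, hx, h3⟩
      · exact Or.inl (Or.inl h3)
      · have hxt : ∃ t, x ∈ gS (g := g) (ltS (k := kb) l) t :=
          ⟨fun i => (glue c p0 q.1 i).1.1, (mem_gS _ _ _).2 hx⟩
        by_cases h4 : x.1 ∈ A0
        · right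
          have h5 : (((e (e.symm ⟨x.1, h4⟩)).1, x.2) : Fin g × Pool.XDA.Lt kb l) = x := by
            rw [Equiv.apply_symm_apply]
          refine ⟨(e.symm ⟨x.1, h4⟩, x.2), ?_, ?_⟩
          · show ∃ t, (((e (e.symm ⟨x.1, h4⟩)).1, x.2) : Fin g × Pool.XDA.Lt kb l) ∈ _
            rw [h5]
            exact hxt
          · show C = G.lt ((e (e.symm ⟨x.1, h4⟩)).1, x.2)
            rw [h5]
            exact h3
        · left
          right
          rw [glue_out c p0 q.1 _ h4] at hx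
          refine ⟨x, ⟨h4, ?_⟩, hxt, h3⟩
          cases h6 : ty x.2
          · exact Or.inr ⟨rfl, c.letV _ hx h6⟩
          · exact Or.inl ⟨rfl, c.letU _ hx h6⟩
    have hin : ∀ x : Fin g' × Pool.XDA.Lt kb l, lx (sel c p0 G e) μ x ≠ 0 →
        x.2 ∈ ltS (k := kb) l (q.1 (e x.1)).1.1 := by
      intro x hx
      rw [lx_apply] at hx
      rcases hUw _ (Finsupp.mem_support_iff.2 hx) with h3 | ⟨x', hx', h3⟩
      · exact absurd h3 (G.notZ _)
      · have h4 : (((e x.1).1, x.2) : Fin g × Pool.XDA.Lt kb l) = x' := G.inj h3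
        rw [← h4, glue_in] at hx'
        exact hx'
    refine ⟨μ, hμ, hadm, ?_⟩
    ext ⟨j, y⟩
    rw [cmon_ap]
    split_ifs with h3
    · have h4 : lx (sel c p0 G e) μ (j, y) ≠ 0 := by
        refine req c p0 G e q.1 (hrej q j y h3) hμ hadm fun x hx => ?_
        have h5 := hin x hx
        split_ifs with h6
        · cases h7 : ty x.2
          · exact Or.inr (c.letV _ h5 h7)
          · exact Or.inl rfl
        · cases h7 : ty x.2
          · exact Or.inl rfl
          · exact Or.inr (c.letU _ h5 h7)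
      have h5 : lx (sel c p0 G e) μ (j, y) ≤ 1 := hml ω μ hμ _
      omega
    · by_contra h4
      exact h3 (hin (j, y) h4)

end Pool.XDF
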