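import Pool.Agent.XDF.Local
import Pool.Agent.XDS.Gad

/-!
# The gadget for `k`-SAT with windows cut into `k` pieces

For every chunk `i`, block `j`, piece `q` and content `z` of the piece there are two variables:
`the piece has the content z` and a ladder variable. A letter (block and content) is the clause
which is violated iff all its `k` pieces have the right content.
-/

set_option autoImplicit false

namespace Pool.XDF

open Finset Pool.SatDet Pool.XDA Pool.XDS

section windows

variable {g k l u R n d : ℕ}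

/-- positions in the window -/
def pos (h : (d + 1) * u = l + 1) : Fin (d + 1) × Fin u ≃ Fin (l + 1) :=
  finProdFinEquiv.trans (finCongr h)

/-- the piece `q` of the content `z` -/
def sub (h : (d + 1) * u = l + 1) (q : Fin (d + 1)) (z : Fin (l + 1) → Bool) : Fin u → Bool :=
  fun p => z (pos h (q, p))

theorem sub_ext (h : (d + 1) * u = l + 1) {z z' : Fin (l + 1) → Bool}
    (hz : ∀ q, sub h q z = sub h q z') : z = z' := by
  funext b
  have h1 := congrFun (hz ((pos h).symm b).1) ((pos h).symm b).2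
  simpa [sub] using h1

/-- the pieces -/
abbrev Pc (g k l u d : ℕ) : Type := Fin g × Fin (k + l) × Fin (d + 1) × (Fin u → Bool)

/-- the variables -/
abbrev Gv (g k l u d R : ℕ) : Type := (Pc g k l u d × Bool) ⊕ Fin R

/-- the numbers of the contents -/
noncomputable def idx (u : ℕ) : (Fin u → Bool) ≃ Fin (Fintype.card (Fin u → Bool)) :=
  Fintype.equivFin _

/-- the assignment of a word -/
noncomputable def val (h : (d + 1) * u = l + 1) (s : Fin g → Fin k → Bool) : Gv g k l u d R → Bool
  | Sum.inl (x, false) => decide (x.2.2.2 = sub h x.2.2.1 (win l (s x.1) x.2.1))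
  | Sum.inl (x, true) => decide (idx u x.2.2.2 ≤ idx u (sub h x.2.2.1 (win l (s x.1) x.2.1)))
  | Sum.inr _ => false

/-- the assignment of a word -/
noncomputable def asg (h : (d + 1) * u = l + 1) (ε : Gv g k l u d R ≃ Fin n)
    (s : Fin g → Fin k → Bool) (i : Fin n) : Bool :=
  val h s (ε.symm i)

theorem loc_windows (h : (d + 1) * u = l + 1) (ε : Gv g k l u d R ≃ Fin n) :
    Loc3 (asg (g := g) (k := k) h ε) := by
  classical
  intro a hT
  have hloc : ∀ x y z : Gv g k l u d R, ∃ s : Fin g → Fin k → Bool,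
      a (ε x) = val h s x ∧ a (ε y) = val h s y ∧ a (ε z) = val h s z := by
    intro x y z
    obtain ⟨s, hs⟩ := hT {ε x, ε y, ε z} Finset.card_le_three
    have h : ∀ w, a (ε w) = asg h ε s (ε w) → a (ε w) = val h s w := by
      intro w hw
      rw [hw, asg, Equiv.symm_apply_apply]
    exact ⟨s, h x (hs _ (by simp)), h y (hs _ (by simp)), h z (hs _ (by simp))⟩
  have hcard : 0 < Fintype.card (Fin u → Bool) := Fintype.card_pos
  -- the ladder
  have hex : ∀ (i : Fin g) (j : Fin (k + l)) (q : Fin (d + 1)), ∃ z : Fin u → Bool,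
      a (ε (Sum.inl ((i, j, q, z), false))) = true := by
    intro i j q
    by_contra hcon
    push Not at hcon
    have hu : ∀ z : Fin u → Bool, a (ε (Sum.inl ((i, j, q, z), false))) = false := by
      intro z
      simpa using hcon z
    have key : ∀ (m : ℕ) (hm : m < Fintype.card (Fin u → Bool)),
        a (ε (Sum.inl ((i, j, q, (idx u).symm ⟨m, hm⟩), true))) = true := by
      intro m
      induction m with
      | zero =>
        intro hm
        obtain ⟨s, h1, -⟩ := hloc (Sum.inl ((i, j, q, (idx u).symm ⟨0, hm⟩), true))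
          (Sum.inl ((i, j, q, (idx u).symm ⟨0, hm⟩), true))
          (Sum.inl ((i, j, q, (idx u).symm ⟨0, hm⟩), true))
        rw [h1]
        simp only [val, decide_eq_true_eq, Equiv.apply_symm_apply]
        exact Nat.zero_le _
      | succ m ih =>
        intro hm
        obtain ⟨s, h1, h2, h3⟩ := hloc
          (Sum.inl ((i, j, q, (idx u).symm ⟨m, by omega⟩), true))
          (Sum.inl ((i, j, q, (idx u).symm ⟨m, by omega⟩), false))
          (Sum.inl ((i, j, q, (idx u).symm ⟨m + 1, hm⟩), true))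
        rw [ih] at h1
        rw [hu] at h2
        simp only [val, Equiv.apply_symm_apply] at h1 h2 h3
        have h4 : (⟨m, by omega⟩ : Fin _) ≤ idx u (sub h q (win l (s i) j)) := by simpa using h1.symm
        have h5 : (idx u).symm ⟨m, by omega⟩ ≠ sub h q (win l (s i) j) := by simpa using h2.symm
        have h6 : (⟨m, by omega⟩ : Fin _) ≠ idx u (sub h q (win l (s i) j)) := by
          intro h7
          apply h5
          rw [h7, Equiv.symm_apply_apply]
        rw [h3, decide_eq_true_eq]
        exact lt_of_le_of_ne h4 h6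
    obtain ⟨s, h1, h2, -⟩ := hloc
      (Sum.inl ((i, j, q, (idx u).symm ⟨Fintype.card (Fin u → Bool) - 1, by omega⟩), true))
      (Sum.inl ((i, j, q, (idx u).symm ⟨Fintype.card (Fin u → Bool) - 1, by omega⟩), false))
      (Sum.inl ((i, j, q, (idx u).symm ⟨Fintype.card (Fin u → Bool) - 1, by omega⟩), false))
    rw [key] at h1
    rw [hu] at h2
    simp only [val, Equiv.apply_symm_apply] at h1 h2
    have h4 : (⟨Fintype.card (Fin u → Bool) - 1, by omega⟩ : Fin _) ≤
        idx u (sub h q (win l (s i) j)) := by simpa using h1.symm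
    have h5 : (idx u).symm ⟨Fintype.card (Fin u → Bool) - 1, by omega⟩ ≠
        sub h q (win l (s i) j) := by simpa using h2.symm
    apply h5
    rw [Equiv.symm_apply_eq]
    apply Fin.ext
    have h6 := (idx u (sub h q (win l (s i) j))).2
    have h7 : Fintype.card (Fin u → Bool) - 1 ≤ (idx u (sub h q (win l (s i) j)) : ℕ) := h4
    simp only
    omega
  choose e he using hex
  -- the contents of the windows
  set c : Fin g → Fin (k + l) → Fin (l + 1) → Bool := fun i j b =>
    e i j ((pos h).symm b).1 ((pos h).symm b).2 with hc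
  have hsub : ∀ i j q, sub h q (c i j) = e i j q := by
    intro i j q
    funext p
    simp [sub, hc]
  -- a family member which agrees on one piece
  have htrue : ∀ (t : Fin g → Fin k → Bool) i j q,
      true = val (R := R) h t (Sum.inl ((i, j, q, e i j q), false)) →
      ∀ p, c i j (pos h (q, p)) = win l (t i) j (pos h (q, p)) := by
    intro t i j q h1 p
    have h2 := of_decide_eq_true h1.symm
    simp only at h2
    have h3 := congrFun h2 p
    simp only [hc, Equiv.symm_apply_apply]
    rw [h3]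
    rfl
  -- the word
  set s : Fin g → Fin k → Bool := fun i p => c i ⟨p.1, by omega⟩ 0 with hs
  have hwin : ∀ i j, c i j = win l (s i) j := by
    intro i j
    funext b
    obtain ⟨⟨q, p⟩, rfl⟩ := (pos h).surjective b
    rw [win]
    split_ifs with hq
    · have hj : j.1 - (pos h (q, p)).1 < k + l := by omega
      obtain ⟨t, h1, h2, -⟩ := hloc (Sum.inl ((i, j, q, e i j q), false))
        (Sum.inl ((i, ⟨j.1 - (pos h (q, p)).1, hj⟩, ((pos h).symm 0).1,
          e i ⟨j.1 - (pos h (q, p)).1, hj⟩ ((pos h).symm 0).1), false))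
        (Sum.inl ((i, j, q, e i j q), false))
      rw [he] at h1 h2
      have h3 := htrue t i j q h1 p
      have h4 := htrue t i ⟨j.1 - (pos h (q, p)).1, hj⟩ ((pos h).symm 0).1 h2 ((pos h).symm 0).2
      rw [show ((((pos h).symm 0).1, ((pos h).symm 0).2) : Fin (d + 1) × Fin u) =
        (pos h).symm 0 from rfl, Equiv.apply_symm_apply] at h4
      have h5 : c i j (pos h (q, p)) = bit (t i) (j.1 - (pos h (q, p)).1) := by
        rw [h3, win, if_pos hq]
      have h6 : c i ⟨j.1 - (pos h (q, p)).1, hj⟩ 0 = bit (t i) (j.1 - (pos h (q, p)).1) := by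
        rw [h4]
        simp [win]
      rw [h5]
      unfold bit
      split_ifs with h7
      · simp only [hs]
        rw [h6, bit, dif_pos h7]
      · rfl
    · obtain ⟨t, h1, -⟩ := hloc (Sum.inl ((i, j, q, e i j q), false))
        (Sum.inl ((i, j, q, e i j q), false)) (Sum.inl ((i, j, q, e i j q), false))
      rw [he] at h1
      rw [htrue t i j q h1 p, win, if_neg hq]
  refine ⟨s, ?_⟩
  funext v
  obtain ⟨w, rfl⟩ := ε.surjective v
  rw [asg, Equiv.symm_apply_apply]
  rcases w with ⟨⟨i, j, q, z⟩, b⟩ | r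
  · obtain ⟨t, h1, h2, -⟩ := hloc (Sum.inl ((i, j, q, z), b)) (Sum.inl ((i, j, q, e i j q), false))
      (Sum.inl ((i, j, q, e i j q), false))
    rw [he] at h2
    have h3 : e i j q = sub h q (win l (t i) j) := of_decide_eq_true h2.symm
    have h4 : e i j q = sub h q (win l (s i) j) := by rw [← hwin, hsub]
    rw [h1]
    cases b
    · simp only [val]
      rw [← h3, ← h4]
    · simp only [val]
      rw [← h3, ← h4]
  · obtain ⟨t, h1, -⟩ := hloc (Sum.inr r) (Sum.inr r) (Sum.inr r)
    rw [h1]
    rfl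

/-- the variables of a letter -/
noncomputable def vars (h : (d + 1) * u = l + 1) (ε : Gv g k l u d R ≃ Fin n)
    (x : Fin g × Lt k l) : Finset (Fin n) :=
  univ.image fun q : Fin (d + 1) => ε (Sum.inl ((x.1, x.2.1, q, sub h q x.2.2), false))

theorem vars_card (h : (d + 1) * u = l + 1) (ε : Gv g k l u d R ≃ Fin n)
    (x : Fin g × Lt k l) : (vars h ε x).card = d + 1 := by
  rw [vars, card_image_of_injective, card_univ, Fintype.card_fin]
  intro q q' hq
  have h1 := ε.injective hq
  simp only [Sum.inl.injEq, Prod.mk.injEq] at h1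
  exact h1.1.2.2.1

theorem vars_true (h : (d + 1) * u = l + 1) (ε : Gv g k l u d R ≃ Fin n)
    (x : Fin g × Lt k l) (s : Fin g → Fin k → Bool) :
    (∀ i ∈ vars h ε x, asg h ε s i = true) ↔ x ∈ gS (ltS (k := k) l) s := by
  obtain ⟨i, j, z⟩ := x
  rw [mem_gS]
  simp only [vars, mem_image, mem_univ, true_and, forall_exists_index, forall_apply_eq_imp_iff,
    asg, Equiv.symm_apply_apply, val, decide_eq_true_eq, ltS, Prod.mk.injEq]
  constructor
  · intro h1
    exact ⟨j, rfl, (sub_ext h h1).symm⟩
  · rintro ⟨j', rfl, h1⟩ q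
    rw [h1]

theorem vars_inj (h : (d + 1) * u = l + 1) (ε : Gv g k l u d R ≃ Fin n) :
    Function.Injective (vars h ε : Fin g × Lt k l → Finset (Fin n)) := by
  rintro ⟨i, j, z⟩ ⟨i', j', z'⟩ hxy
  have h1 : ∀ q : Fin (d + 1), i = i' ∧ j = j' ∧ sub h q z = sub h q z' := by
    intro q
    have h2 : ε (Sum.inl ((i, j, q, sub h q z), false)) ∈ vars h ε (i', (j', z')) := by
      rw [← hxy]
      exact mem_image_of_mem _ (mem_univ q)
    obtain ⟨q', -, hq'⟩ := mem_image.1 h2
    have h3 := ε.injective hq'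
    simp only [Sum.inl.injEq, Prod.mk.injEq] at h3
    obtain ⟨⟨h4, h5, h6, h7⟩, -⟩ := h3
    subst h6
    exact ⟨h4.symm, h5.symm, h7.symm⟩
  obtain ⟨rfl, rfl, -⟩ := h1 0
  rw [sub_ext h fun q => (h1 q).2.2]

/-- the gadget -/
noncomputable def gadW (h : (d + 1) * u = l + 1) (ε : Gv g k l u d R ≃ Fin n) (hd : 2 ≤ d)
    (hk : d + 1 ≤ n) : Gad n d (gS (g := g) (ltS (k := k) l)) := by
  classical
  refine
  { lt := lcl (vars h ε) (vars_card h ε)
    Z := Zf (asg h ε) (vars h ε) (vars_card h ε)
    inj := lcl_inj _ _ (vars_inj h ε)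
    notZ := lcl_notMem _ _ _
    main := ?_
    sat := ?_ }
  · rintro U ⟨a, ha⟩ hU
    obtain ⟨t, -, ht⟩ := main_loc (asg h ε) _ (vars_card h ε) hk hd (loc_windows h ε) (U := U)
      (fun C hC => by
        rcases hU C hC with h1 | ⟨x, ⟨t, ht⟩, h1⟩
        · exact Or.inl h1
        · exact Or.inr ⟨x, ⟨t, (vars_true h ε x t).2 ht⟩, h1⟩) ha
    exact ⟨t, fun x hx => ht x ((vars_true h ε x t).2 hx)⟩
  · intro t
    refine ⟨asg h ε t, ?_, ?_⟩
    · intro C hC
      by_cases h1 : ∃ x, C = lcl (vars h ε) (vars_card h ε) x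
      · obtain ⟨x, rfl⟩ := h1
        rw [viol_lcl] at hC
        exact Or.inr ⟨x, (vars_true h ε x t).1 hC, rfl⟩
      · push Not at h1
        exact Or.inl ((mem_Zf _ _ _ _).2 ⟨⟨t, hC⟩, h1⟩)
    · intro a ha
      set U : Finset (Clause n (d + 1)) := univ.filter fun C =>
        C ∈ Zf (asg h ε) (vars h ε) (vars_card h ε) ∨
          ∃ x ∈ gS (g := g) (ltS (k := k) l) t, C = lcl (vars h ε) (vars_card h ε) x
        with hU
      obtain ⟨t', ht', hl⟩ := main_loc (asg h ε) _ (vars_card h ε) hk hd (loc_windows h ε) (U := U)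
        (fun C hC => by
          rcases (mem_filter.1 hC).2 with h1 | ⟨x, h1, h2⟩
          · exact Or.inl h1
          · exact Or.inr ⟨x, ⟨t, (vars_true h ε x t).2 h1⟩, h2⟩)
        (a := a) (fun C hC => mem_filter.2 ⟨mem_univ _, ha C hC⟩)
      rw [ht']
      congr 1
      apply gS_subset_eq (l := l)
      intro x hxt
      have h1 := hl x ((vars_true h ε x t').2 hxt)
      rcases (mem_filter.1 h1).2 with h2 | ⟨y, hy, h2⟩
      · exact absurd h2 (lcl_notMem _ _ _ x)
      · rw [lcl_inj _ _ (vars_inj h ε) h2]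
        exact hy

/-- **the gadget exists** -/
theorem exists_gad {g k l u n d : ℕ} (hd : 2 ≤ d) (hg : 1 ≤ g) (hkl : 1 ≤ k + l)
    (h : (d + 1) * u = l + 1) (hn : g * (2 * (d + 1) * (k + l) * 2 ^ u) ≤ n) :
    Nonempty (Gad n d (gS (g := g) (ltS (k := k) l))) := by
  classical
  have hcard : Fintype.card (Pc g k l u d × Bool) = g * (2 * (d + 1) * (k + l) * 2 ^ u) := by
    simp only [Fintype.card_prod, Fintype.card_fin, Fintype.card_fun, Fintype.card_bool]
    ring
  obtain ⟨R, hR⟩ : ∃ R, g * (2 * (d + 1) * (k + l) * 2 ^ u) + R = n :=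
    ⟨n - g * (2 * (d + 1) * (k + l) * 2 ^ u), by omega⟩
  have hc : Fintype.card (Gv g k l u d R) = n := by
    rw [Fintype.card_sum, hcard, Fintype.card_fin, hR]
  obtain ⟨ε⟩ : Nonempty (Gv g k l u d R ≃ Fin n) :=
    ⟨Fintype.equivOfCardEq (by rw [hc, Fintype.card_fin])⟩
  refine ⟨gadW h ε hd ?_⟩
  have h1 : 1 * (2 * (d + 1) * 1 * 1) ≤ g * (2 * (d + 1) * (k + l) * 2 ^ u) :=
    Nat.mul_le_mul hg (Nat.mul_le_mul (Nat.mul_le_mul le_rfl hkl) Nat.one_le_two_pow)
  omega

end windows

end Pool.XDF
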