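import Pool.Agent.XDF.Num
import Pool.Agent.XDF.Gad
import Pool.Agent.XDF.Core

/-!
# Tests for `k`-SAT of constant depth with two sided error: better exponents
-/

set_option autoImplicit false

namespace Pool.XDF

open Finset MvPolynomial Pool.SatDet Pool.XDA Pool.XD Pool.XDS Pool.CD Pool.CDep
  Pool.Agent.Helper41.CD Pool.Agent.Helper59.CDT

open Classical in
/-- **random tests of constant depth for `k`-SAT with two sided error** (`k = d + 1`); `l` is the
level -/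
theorem xdf (d : ℕ) (hd : 2 ≤ d) : ∃ C : ℝ, 1 ≤ C ∧
    ∀ (F : Type) [Field F] (Ω : Type) [Fintype Ω] (l n T S w w0 : ℕ) (a b q : ℝ) (pr : Ω → ℝ)
      (f : Ω → Fin T → Fin S → MvPolynomial (Clause n (d + 1)) F),
      1 ≤ n → 1 ≤ T → 2 ≤ S → 1 ≤ w → 1 ≤ w0 → 0 < a → a ≤ 1 → b * q ≤ a →
      (∀ ω, 0 ≤ pr ω) → ∑ ω, pr ω = 1 → (∀ ω i j, f ω i j ∈ Cls w0 w S l) →
      (∀ ω, ∀ m ∈ (∑ i, ∏ j, f ω i j).support, ∀ c, m c ≤ 1) →
      (∀ U : Finset (Clause n (d + 1)), ¬ SatP n (d + 1) U →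
        ∑ ω, (if rst U (∑ i, ∏ j, f ω i j) ≠ 0 then pr ω else 0) ≤ b) →
      (∀ U : Finset (Clause n (d + 1)), (∃! a : Fin n → Bool, ∀ c, c ∉ U → Sats a c) →
        a ≤ ∑ ω, if rst U (∑ i, ∏ j, f ω i j) ≠ 0 then pr ω else 0) →
      (n : ℝ) ≤ C * Real.log (2 * n * (T / a)) *
        (C * (Real.log S + (w + w0) * Real.log (2 * n))) ^
          ((1 + 2 / ((d + 1 : ℕ) : ℝ)) * ((Nat.fib (2 * l + 4) : ℝ) - 2) + 1 / ((d + 1 : ℕ) : ℝ)) ∨
      q ≤ (C * (Real.log S + (w + w0) * Real.log (2 * n))) ^ ((Nat.fib (2 * l + 4) : ℝ) - 1) := by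
  obtain ⟨C1, hC1, hfin⟩ := xdf_final (d + 1) (by omega)
  refine ⟨2 * C1, by linarith, ?_⟩
  intro F _ Ω _ k n T S w w0 a b q pr f hn hT hS hw hw0 ha ha1 hb hpr hpr1 hf hml hno hyes
  have hTr : (1 : ℝ) ≤ T := by exact_mod_cast hT
  have hmr : (1 : ℝ) ≤ n := by exact_mod_cast hn
  have hTa : 1 ≤ (T : ℝ) / a := by
    rw [le_div_iff₀ ha]
    linarith
  have hτ : 1 ≤ (T : ℝ) / (a / 2) := by
    rw [le_div_iff₀ (by positivity)]
    linarith
  have key : (n : ℝ) ≤ C1 * Real.log (2 * n * (T / (a / 2))) *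
        (C1 * (Real.log S + (w + w0) * Real.log (2 * n))) ^
          ((1 + 2 / ((d + 1 : ℕ) : ℝ)) * ((Nat.fib (2 * k + 4) : ℝ) - 2) +
            1 / ((d + 1 : ℕ) : ℝ)) ∨
      q ≤ (C1 * (Real.log S + (w + w0) * Real.log (2 * n))) ^
        ((Nat.fib (2 * k + 4) : ℝ) - 1) := by
    obtain ⟨θ, kb, l, u, X, Y, h0, h1, hkb, hu, hlU, hlV, hX0, hY0, hX, hY, hnum, hlast⟩ :=
      hfin k n (T / (a / 2)) q S w w0 hτ hS hw hw0
    refine hlast fun hq g hg hgn => ?_
    have h1' : 0 < 1 - θ := by linarith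
    obtain ⟨HU, hHU⟩ : ∃ H : ℝ, H = 2 ^ (1 / θ) := ⟨_, rfl⟩
    obtain ⟨HV, hHV⟩ : ∃ H : ℝ, H = 2 ^ (1 / (1 - θ)) := ⟨_, rfl⟩
    have hHU1 : 1 < HU := by
      rw [hHU]
      exact Real.one_lt_rpow (by norm_num) (by positivity)
    have hHV1 : 1 < HV := by
      rw [hHV]
      exact Real.one_lt_rpow (by norm_num) (by positivity)
    obtain ⟨τ, hbU, hbV, hcU, hcV⟩ := exists_types h0 h1
    rw [← hHU] at hbU hcU hlU hnum ⊢
    rw [← hHV] at hbV hcV hlV hnum ⊢
    obtain ⟨G⟩ := exists_gad (g := g) (k := kb) (l := l) (n := n) hd hg (by omega) hu hgn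
    have hD : 4 * ((kb + l : ℕ) : ℝ) * b ≤ a := by
      rcases le_or_gt b 0 with h2 | h2
      · have : 4 * ((kb + l : ℕ) : ℝ) * b ≤ 0 :=
          mul_nonpos_of_nonneg_of_nonpos (by positivity) h2
        linarith
      · calc 4 * ((kb + l : ℕ) : ℝ) * b ≤ q * b := mul_le_mul_of_nonneg_right hq h2.le
          _ = b * q := mul_comm _ _
          _ ≤ a := hb
    obtain ⟨g', r, E, hg1, hg2, hr, hE, hrE, hcard⟩ := sat_core hkb hHU1 hHV1 hbU hbV hlU hlV hg G
      pr hpr hpr1 f hf (by omega) hw hw0 hml ha hD hno (fun s => hyes _ (by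
        obtain ⟨a, ha, hu⟩ := G.sat s
        refine ⟨a, fun c hc => ?_, fun b hb => hu b fun c hc => ?_⟩
        · by_contra h
          exact hc (mem_filter.2 ⟨mem_univ _, ha c h⟩)
        · by_contra h
          exact hc (hb c fun h' => h (mem_filter.1 h').2))) hX hY hX0 hY0 (fun g' hg' => by
            apply hnum
            refine le_trans ?_ hgn
            refine Nat.mul_le_mul hg' ?_
            calc kb + l = 1 * (kb + l) * 1 := by ring
              _ ≤ 2 * (d + 1) * (kb + l) * 2 ^ u :=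
                Nat.mul_le_mul (Nat.mul_le_mul_right _ (by omega)) Nat.one_le_two_pow)
    refine ⟨g', r, E, hg1, hg2, hrE, ?_, ?_, ?_⟩
    · rw [hr]
      exact hcU _
    · rw [hE]
      exact hcV _
    · have ha2 : 0 < a / 2 := by positivity
      rw [← mul_le_mul_iff_right₀ ha2]
      refine hcard.trans (le_of_eq ?_)
      field_simp
  have hw1 : (1 : ℝ) ≤ w := by exact_mod_cast hw
  have hw01 : (1 : ℝ) ≤ w0 := by exact_mod_cast hw0
  have hl0 : 0 ≤ Real.log (2 * n) := Real.log_nonneg (by linarith)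
  have hlS : 0 ≤ Real.log S := Real.log_natCast_nonneg S
  have hA : 0 ≤ Real.log S + (w + w0) * Real.log (2 * n) := by positivity
  have hC1' : C1 * (Real.log S + (w + w0) * Real.log (2 * n)) ≤
      2 * C1 * (Real.log S + (w + w0) * Real.log (2 * n)) :=
    mul_le_mul_of_nonneg_right (by linarith) hA
  have hfib : 3 ≤ Nat.fib (2 * k + 4) := by
    have h1 : Nat.fib 4 ≤ Nat.fib (2 * k + 4) := Nat.fib_mono (by omega)
    exact h1
  have hfibr : (3 : ℝ) ≤ Nat.fib (2 * k + 4) := by exact_mod_cast hfib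
  have hdr : (0 : ℝ) < ((d + 1 : ℕ) : ℝ) := by positivity
  rcases key with key | key
  swap
  · right
    refine key.trans ?_
    exact Real.rpow_le_rpow (by positivity) hC1' (by linarith)
  left
  have h2 : (2 : ℝ) ≤ 2 * n * (T / a) := by nlinarith
  have h3 : Real.log (2 * n * (T / (a / 2))) ≤ 2 * Real.log (2 * n * (T / a)) := by
    have e1 : 2 * (n : ℝ) * (T / (a / 2)) = 2 * (2 * n * (T / a)) := by
      field_simp
    rw [e1, Real.log_mul (by norm_num) (by positivity)]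
    have e2 : Real.log 2 ≤ Real.log (2 * n * (T / a)) := Real.log_le_log (by norm_num) h2
    linarith
  have h4 : 0 ≤ Real.log (2 * n * (T / (a / 2))) := by
    apply Real.log_nonneg
    nlinarith
  refine key.trans ?_
  have h6 : 0 ≤ (1 + 2 / ((d + 1 : ℕ) : ℝ)) * ((Nat.fib (2 * k + 4) : ℝ) - 2) +
      1 / ((d + 1 : ℕ) : ℝ) := by
    have : 0 ≤ (Nat.fib (2 * k + 4) : ℝ) - 2 := by linarith
    positivity
  apply mul_le_mul
  · calc C1 * Real.log (2 * n * (T / (a / 2))) ≤ C1 * (2 * Real.log (2 * n * (T / a))) :=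
          mul_le_mul_of_nonneg_left h3 (by linarith)
      _ = 2 * C1 * Real.log (2 * n * (T / a)) := by ring
  · exact Real.rpow_le_rpow (by positivity) hC1' h6
  · positivity
  · have : 0 ≤ Real.log (2 * n * (T / a)) := Real.log_nonneg (by linarith)
    positivity

end Pool.XDF
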