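import Pool.Agent.XDS.Local

/-!
# Letters given by sets of variables

`as : W → Fin n → Bool` is a family of assignments. The letter `l` is the clause which is violated
iff all variables in the set `x l` are true. The free clauses are the other clauses which are
violated by a member of the family.
-/

set_option autoImplicit false

namespace Pool.XDF

open Finset Pool.SatDet Pool.XDS

variable {n d : ℕ}

section family

variable {W L : Type} (as : W → Fin n → Bool) (x : L → Finset (Fin n))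
  (hx : ∀ l, (x l).card = d + 1)

/-- the letter -/
def lcl (l : L) : Clause n (d + 1) := vcl (fun _ => true) (x l) (hx l)

theorem viol_lcl (l : L) (a : Fin n → Bool) : ¬ Sats a (lcl x hx l) ↔ ∀ i ∈ x l, a i = true := by
  rw [lcl, viol_vcl]

theorem lcl_inj (hinj : Function.Injective x) : Function.Injective (lcl x hx) := by
  intro l l' h
  have h1 := congrArg supp h
  rw [lcl, lcl, supp_vcl, supp_vcl] at h1
  exact hinj h1

open Classical in
/-- the free clauses -/
noncomputable def Zf : Finset (Clause n (d + 1)) :=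
  univ.filter fun C => (∃ t, ¬ Sats (as t) C) ∧ ∀ l, C ≠ lcl x hx l

theorem mem_Zf (C : Clause n (d + 1)) : C ∈ Zf as x hx ↔
    (∃ t, ¬ Sats (as t) C) ∧ ∀ l, C ≠ lcl x hx l := by
  classical
  rw [Zf, mem_filter]
  simp only [mem_univ, true_and]

theorem lcl_notMem (l : L) : lcl x hx l ∉ Zf as x hx := fun h => ((mem_Zf _ _ _ _).1 h).2 l rfl

/-- a satisfying assignment is locally in the family -/
theorem loc (hk : d + 1 ≤ n) {U : Finset (Clause n (d + 1))}
    (hU : ∀ C ∈ U, C ∈ Zf as x hx ∨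
      ∃ l, (∃ t, ∀ i ∈ x l, as t i = true) ∧ C = lcl x hx l)
    {a : Fin n → Bool} (ha : ∀ C, ¬ Sats a C → C ∈ U) (T : Finset (Fin n)) (hT : T.card ≤ d + 1) :
    ∃ t, ∀ i ∈ T, a i = as t i := by
  obtain ⟨T', hTT', hT'⟩ := exists_superset_card_eq hT (by rw [Fintype.card_fin]; exact hk)
  have h1 : vcl a T' hT' ∈ U := ha _ (not_sats_vcl a T' hT')
  have h2 : ∃ t, ¬ Sats (as t) (vcl a T' hT') := by
    rcases hU _ h1 with h | ⟨l, ⟨t, ht⟩, h⟩
    · exact ((mem_Zf _ _ _ _).1 h).1
    · refine ⟨t, ?_⟩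
      rw [h]
      exact (viol_lcl x hx l (as t)).2 ht
  obtain ⟨t, ht⟩ := h2
  refine ⟨t, fun i hi => ?_⟩
  exact ((viol_vcl _ _ _ _).1 ht i (hTT' hi)).symm

/-- **main property**: a satisfiable formula contains in its complement all letters of a word -/
theorem main_loc (hk : d + 1 ≤ n) (hd : 2 ≤ d)
    (h3 : Loc3 as) {U : Finset (Clause n (d + 1))}
    (hU : ∀ C ∈ U, C ∈ Zf as x hx ∨
      ∃ l, (∃ t, ∀ i ∈ x l, as t i = true) ∧ C = lcl x hx l)
    {a : Fin n → Bool} (ha : ∀ C, ¬ Sats a C → C ∈ U) :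
    ∃ t, a = as t ∧ ∀ l, (∀ i ∈ x l, as t i = true) → lcl x hx l ∈ U := by
  obtain ⟨t, ht⟩ := h3 a fun T hT => loc as x hx hk hU ha T (hT.trans (by omega))
  refine ⟨t, ht, fun l hl => ?_⟩
  apply ha
  rw [ht]
  exact (viol_lcl x hx l (as t)).2 hl

end family

end Pool.XDF
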