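import Pool.Agent.XDA.Num

/-!
# The numbers for `K`-SAT: chunks with letters of `K` pieces
-/

set_option autoImplicit false

namespace Pool.XDF

open Real Pool.XD Pool.XDA

theorem two_pow_ge' {a : ℕ} (ha : 18 ≤ a) : 512 * a ^ 2 ≤ 2 ^ a := by
  induction a, ha using Nat.le_induction with
  | base => norm_num
  | succ a ha ih =>
    rw [pow_succ 2 a]
    nlinarith

/-- the length of the window -/
theorem exists_l' {kb K : ℕ} (hK : 1 ≤ K) (hkb : 128 * K ≤ kb) : ∃ l u : ℕ, K * u = l + 1 ∧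
    l ≤ kb ∧ 128 * kb ^ 2 ≤ 2 ^ l ∧ 2 ^ l ≤ 128 * 2 ^ K * kb ^ 2 := by
  obtain ⟨l0, hl0⟩ : ∃ l0, l0 = Nat.clog 2 (128 * kb ^ 2) := ⟨_, rfl⟩
  have h1 : 1 < 128 * kb ^ 2 := by nlinarith
  have h3 : 0 < l0 := by
    rw [hl0]
    exact Nat.clog_pos (by norm_num) (by omega)
  have h2 : 2 ^ (l0 - 1) < 128 * kb ^ 2 := by
    rw [hl0]
    exact Nat.pow_pred_clog_lt_self (b := 2) (by norm_num) h1
  have h4 : 128 * kb ^ 2 ≤ 2 ^ l0 := by
    rw [hl0]
    exact Nat.le_pow_clog (by norm_num) _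
  obtain ⟨u, hu⟩ : ∃ u, u = l0 / K + 1 := ⟨_, rfl⟩
  have h5 := Nat.div_add_mod l0 K
  have h6 := Nat.mod_lt l0 (show 0 < K by omega)
  have h7 : K * u = K * (l0 / K) + K := by rw [hu]; ring
  obtain ⟨l, hl⟩ : ∃ l, K * u = l + 1 := ⟨K * u - 1, by omega⟩
  have h8 : l0 ≤ l := by omega
  have h9 : l ≤ l0 - 1 + K := by omega
  have h10 : 2 ^ l ≤ 128 * 2 ^ K * kb ^ 2 := by
    calc 2 ^ l ≤ 2 ^ (l0 - 1 + K) := Nat.pow_le_pow_right (by norm_num) h9
      _ = 2 ^ (l0 - 1) * 2 ^ K := pow_add _ _ _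
      _ ≤ 128 * kb ^ 2 * 2 ^ K := Nat.mul_le_mul_right _ h2.le
      _ = _ := by ring
  refine ⟨l, u, hl, ?_, h4.trans (Nat.pow_le_pow_right (by norm_num) h8), h10⟩
  obtain ⟨a, ha⟩ : ∃ a, kb = a + K := ⟨kb - K, by omega⟩
  have h11 : 18 ≤ a := by omega
  have h12 : kb ≤ 2 * a := by omega
  have h13 : kb ^ 2 ≤ (2 * a) ^ 2 := Nat.pow_le_pow_left h12 2
  have h14 := two_pow_ge' h11
  have h15 : 2 ^ l ≤ 2 ^ kb := by
    calc 2 ^ l ≤ 128 * 2 ^ K * kb ^ 2 := h10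
      _ ≤ 128 * 2 ^ K * (2 * a) ^ 2 := Nat.mul_le_mul_left _ h13
      _ = 512 * a ^ 2 * 2 ^ K := by ring
      _ ≤ 2 ^ a * 2 ^ K := Nat.mul_le_mul_right _ h14
      _ = 2 ^ kb := by rw [ha, pow_add]
  exact (Nat.pow_le_pow_iff_right (by norm_num)).1 h15

/-- the number of the bits is large enough -/
theorem kb_large' {K N Lg kb : ℕ} (hK : 1 ≤ K) (hN : 1 ≤ N) (hLg : Lg = Nat.log 2 N + 1)
    (hkb : kb = 128 * K * N * Lg) :
    log (36864 * 2 ^ K * (kb : ℝ) ^ 4) + 1 ≤ 2 * log 2 * kb / (4 * N) := by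
  have hNr : (1 : ℝ) ≤ N := by exact_mod_cast hN
  have hKr : (1 : ℝ) ≤ K := by exact_mod_cast hK
  have hL1 : 1 ≤ Lg := by omega
  have hLr : (1 : ℝ) ≤ Lg := by exact_mod_cast hL1
  have hkbr : (kb : ℝ) = 128 * K * N * Lg := by rw [hkb]; push_cast; ring
  have hkb0 : (0 : ℝ) < kb := by rw [hkbr]; positivity
  have hl2 := log_two_gt_d9
  have hl2' := log_two_lt_d9
  have hlg : ∀ x : ℕ, 1 ≤ x → log x ≤ x * log 2 := by
    intro x hx
    have h3 : (x : ℝ) ≤ 2 ^ x := by exact_mod_cast Nat.lt_two_pow_self.le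
    calc log x ≤ log (2 ^ x) := log_le_log (by positivity) h3
      _ = _ := log_pow _ _
  have h1 : log N ≤ Lg * log 2 := by
    have h2 : N < 2 ^ Lg := by
      rw [hLg]
      exact Nat.lt_pow_succ_log_self (by norm_num) N
    have h3 : (N : ℝ) ≤ 2 ^ Lg := by exact_mod_cast h2.le
    calc log N ≤ log (2 ^ Lg) := log_le_log (by linarith) h3
      _ = _ := log_pow _ _
  have h2 := hlg Lg hL1
  have h2' := hlg K hK
  have h3 : log kb = 7 * log 2 + log K + log N + log Lg := by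
    rw [hkbr, log_mul (by positivity) (by positivity), log_mul (by positivity) (by positivity),
      log_mul (by positivity) (by positivity), show (128 : ℝ) = 2 ^ 7 by norm_num, log_pow]
    norm_num
  have h4 : log (36864 * 2 ^ K * (kb : ℝ) ^ 4) = log 36864 + K * log 2 + 4 * log kb := by
    rw [log_mul (by positivity) (by positivity), log_mul (by positivity) (by positivity), log_pow,
      log_pow]
    norm_num
  have h5 : log 36864 ≤ 16 * log 2 := by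
    calc log 36864 ≤ log (2 ^ 16) := log_le_log (by norm_num) (by norm_num)
      _ = _ := by rw [log_pow]; norm_num
  have h6 : 2 * log 2 * kb / (4 * N) = 64 * (K * Lg) * log 2 := by
    rw [hkbr]
    field_simp
    ring
  rw [h4, h6]
  have h7 : (46 : ℝ) + 5 * K + 8 * Lg ≤ 64 * (K * Lg) := by
    nlinarith [mul_nonneg (show (0 : ℝ) ≤ (K : ℝ) - 1 by linarith)
      (show (0 : ℝ) ≤ (Lg : ℝ) - 1 by linarith)]
  have h8 := mul_le_mul_of_nonneg_right h7 (show 0 ≤ log 2 by linarith)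
  linarith

/-- the size of the number of bits -/
theorem kb_le' {K N Lg kb σ p : ℕ} (hN : 1 ≤ N) (hLg : Lg = Nat.log 2 N + 1)
    (hp : 1 ≤ p) (hσ : 1 ≤ σ) (hkb : kb = 128 * K * N * Lg) (hNσ : N ≤ 4 * (18 * σ) ^ p) :
    (kb : ℝ) ≤ 512 * K * (90 * (σ : ℝ)) ^ p * log (18 * σ) := by
  have hNr : (1 : ℝ) ≤ N := by exact_mod_cast hN
  have hσr : (1 : ℝ) ≤ σ := by exact_mod_cast hσ
  have hl2 := log_two_gt_d9
  have hz : (18 : ℝ) ≤ 18 * σ := by linarith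
  obtain ⟨u, hu⟩ : ∃ u, u = log (18 * σ) := ⟨_, rfl⟩
  have hu1 : 2 ≤ u := by
    have h1 : log (2 ^ 4) ≤ log (18 * σ) := log_le_log (by norm_num) (by linarith)
    rw [log_pow] at h1
    rw [hu]
    push_cast at h1
    linarith
  have hN' : (N : ℝ) ≤ 4 * (18 * σ) ^ p := by exact_mod_cast hNσ
  have hpr : (1 : ℝ) ≤ p := by exact_mod_cast hp
  -- the logarithm of N
  have h1 : ((Lg : ℝ) - 1) * log 2 ≤ 2 * log 2 + p * u := by
    have h2 : 2 ^ Nat.log 2 N ≤ N := Nat.pow_log_le_self 2 (by omega)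
    have h3 : (2 : ℝ) ^ Nat.log 2 N ≤ N := by exact_mod_cast h2
    have h4 : (Nat.log 2 N : ℝ) * log 2 ≤ log N := by
      calc (Nat.log 2 N : ℝ) * log 2 = log (2 ^ Nat.log 2 N) := (log_pow _ _).symm
        _ ≤ log N := log_le_log (by positivity) h3
    have h5 : log N ≤ 2 * log 2 + p * u := by
      calc log N ≤ log (4 * (18 * σ) ^ p) := log_le_log (by linarith) hN'
        _ = _ := by
          rw [log_mul (by norm_num) (by positivity), log_pow, ← hu,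
            show (4 : ℝ) = 2 ^ 2 by norm_num, log_pow]
          norm_num
    rw [hLg]
    push_cast
    linarith
  have h2 : (Lg : ℝ) ≤ 5 ^ p * u := by
    have h3 : (3 : ℝ) + 2 * p ≤ 5 ^ p := by
      have : 3 + 2 * p ≤ 5 ^ p := by
        clear h1 hN' hNσ
        induction p, hp using Nat.le_induction with
        | base => norm_num
        | succ p hp ih =>
          have := ih (by exact_mod_cast hp)
          rw [pow_succ]
          omega
      exact_mod_cast this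
    have h4 : (Lg : ℝ) ≤ (3 / 2 + 3 / 2 * p) * u := by
      have h5 : ((Lg : ℝ) - 3) * log 2 ≤ p * u := by linarith
      have h6 : 0 ≤ (p : ℝ) * u := by positivity
      by_contra hcon
      push Not at hcon
      have h7 : 3 / 2 * (p : ℝ) * u ≤ (Lg : ℝ) - 3 := by nlinarith
      have h8 : 3 / 2 * (p : ℝ) * u * log 2 ≤ p * u :=
        (mul_le_mul_of_nonneg_right h7 (by linarith)).trans h5
      nlinarith [mul_pos (show (0 : ℝ) < p by linarith) (show (0 : ℝ) < u by linarith)]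
    calc (Lg : ℝ) ≤ (3 / 2 + 3 / 2 * p) * u := h4
      _ ≤ 5 ^ p * u := mul_le_mul_of_nonneg_right (by linarith) (by linarith)
  have hkbr : (kb : ℝ) = 128 * K * (N * Lg) := by rw [hkb]; push_cast; ring
  rw [← hu, hkbr]
  have e1 : (18 * (σ : ℝ)) ^ p * 5 ^ p = (90 * (σ : ℝ)) ^ p := by
    rw [← mul_pow]
    congr 1
    ring
  calc 128 * (K : ℝ) * (N * Lg) ≤ 128 * K * ((4 * (18 * σ) ^ p) * (5 ^ p * u)) :=
        mul_le_mul_of_nonneg_left (mul_le_mul hN' h2 (Nat.cast_nonneg _) (by positivity))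
          (by positivity)
    _ = 512 * K * ((18 * (σ : ℝ)) ^ p * 5 ^ p) * u := by ring
    _ = _ := by rw [e1]

/-- a power of a logarithm -/
theorem log_pow_three {K : ℕ} (hK : 1 ≤ K) {z : ℝ} (hz : 1 ≤ z) :
    log z ^ 3 ≤ 27 * (K : ℝ) ^ 3 * z ^ (1 / (K : ℝ)) := by
  have hKr : (1 : ℝ) ≤ K := by exact_mod_cast hK
  have h0 : 0 ≤ log z := log_nonneg hz
  have hz0 : 0 < z := by linarith
  obtain ⟨v, hv⟩ : ∃ v, v = log z / (3 * K) := ⟨_, rfl⟩
  have h1 : log z = 3 * K * v := by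
    rw [hv]
    field_simp
  have hv0 : 0 ≤ v := by rw [hv]; positivity
  have h2 : v ≤ exp v := by
    have := add_one_le_exp v
    linarith
  have h3 : v ^ 3 ≤ exp v ^ 3 := pow_le_pow_left₀ hv0 h2 3
  have h4 : exp v ^ 3 = z ^ (1 / (K : ℝ)) := by
    rw [← exp_nat_mul, rpow_def_of_pos hz0, h1]
    congr 1
    push_cast
    field_simp
  rw [h4] at h3
  calc log z ^ 3 = 27 * (K : ℝ) ^ 3 * v ^ 3 := by rw [h1]; ring
    _ ≤ _ := mul_le_mul_of_nonneg_left h3 (by positivity)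

/-- taking logarithms in the rank inequality -/
theorem g_le_xdf {A B N K g g' kb l r E : ℕ} {t T : ℝ} (hN : 1 ≤ N) (hB : 1 ≤ B) (hBA : B ≤ A)
    (ht : t = log 2 * (((A : ℝ) + B) / B)) (hTr : 1 ≤ T) (hkb : 15 ≤ kb) (hl : l ≤ kb)
    (hl2 : 2 ^ l ≤ 128 * 2 ^ K * kb ^ 2) (hgg : g ≤ 2 * g')
    (hlarge : log (36864 * 2 ^ K * (kb : ℝ) ^ 4) + 1 ≤ 2 * log 2 * kb / (4 * N))
    (hrE : r + E = kb + l) (hr : exp t ^ r ≤ 2 ^ (kb + l))
    (hE : exp (t * ((B : ℝ) / A)) ^ E ≤ exp (t * ((B : ℝ) / A)) * 2 ^ (kb + l))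
    (h : (2 : ℝ) ^ (g' * kb) ≤ 2 ^ g * ((4 * (r + 1) * (E + 1)) ^ g' *
      (T * (((g' * (kb + l) : ℕ) + 1 : ℝ) ^ 16 * (exp (t * (1 / 2 - 1 / (4 * N))) ^ (g' * r) *
        exp (t * ((B : ℝ) / A / 2 - 1 / (4 * N))) ^ (g' * E)))))) :
    (g : ℝ) ≤ 2 * (log T + 16 * log ((g' * (kb + l) : ℕ) + 1 : ℝ)) := by
  have hNr : (1 : ℝ) ≤ N := by exact_mod_cast hN
  have hBr : (1 : ℝ) ≤ B := by exact_mod_cast hB
  have hBAr : (B : ℝ) ≤ A := by exact_mod_cast hBA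
  have hTr0 : (0 : ℝ) < T := by linarith
  have hkbr : (15 : ℝ) ≤ kb := by exact_mod_cast hkb
  have hlr : (l : ℝ) ≤ kb := by exact_mod_cast hl
  have hggr : (g : ℝ) ≤ 2 * g' := by exact_mod_cast hgg
  have h2 := log_two_gt_d9
  have hg0 : (0 : ℝ) ≤ g' := Nat.cast_nonneg _
  have hr0 : (0 : ℝ) ≤ r := Nat.cast_nonneg _
  have hE0 : (0 : ℝ) ≤ E := Nat.cast_nonneg _
  have hrEr : (r : ℝ) + E = kb + l := by exact_mod_cast hrE
  -- the two balance conditions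
  have hr' : (r : ℝ) * t ≤ (kb + l) * log 2 := by
    have h3 := log_le_log (by positivity) hr
    rw [log_pow, log_pow, log_exp] at h3
    push_cast at h3
    exact h3
  have hE' : (E : ℝ) * (t * ((B : ℝ) / A)) ≤ t * ((B : ℝ) / A) + (kb + l) * log 2 := by
    have h3 := log_le_log (by positivity) hE
    rw [log_pow, log_mul (by positivity) (by positivity), log_pow, log_exp] at h3
    push_cast at h3
    exact h3
  -- the logarithm of the inequality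
  have h0 := log_le_log (by positivity) h
  have hP0 : (0 : ℝ) < (4 * ((r : ℝ) + 1) * (E + 1)) ^ g' := by positivity
  have hX0 := exp_pos (t * (1 / 2 - 1 / (4 * (N : ℝ))))
  have hY0 := exp_pos (t * ((B : ℝ) / A / 2 - 1 / (4 * (N : ℝ))))
  have hG0 : (0 : ℝ) < ((g' * (kb + l) : ℕ) + 1 : ℝ) := by positivity
  have hX1 := pow_pos hX0 (g' * r)
  have hY1 := pow_pos hY0 (g' * E)
  have hG1 := pow_pos hG0 16
  have h2g : (0 : ℝ) < 2 ^ g := by positivity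
  rw [log_pow, log_mul h2g.ne' (by positivity), log_mul hP0.ne' (by positivity),
    log_mul hTr0.ne' (by positivity),
    log_mul hG1.ne' (by positivity), log_mul hX1.ne' hY1.ne', log_pow,
    log_pow, log_pow, log_pow, log_pow, log_exp, log_exp] at h0
  push_cast at h0 ⊢
  obtain ⟨LT, hLT⟩ : ∃ LT, LT = log T + 16 * log ((g' : ℝ) * (kb + l) + 1) := ⟨_, rfl⟩
  obtain ⟨W, hW⟩ : ∃ W, W = log (4 * ((r : ℝ) + 1) * (E + 1)) := ⟨_, rfl⟩
  rw [← hW] at h0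
  have hAr0 : (0 : ℝ) < A := by linarith
  have hBA0 : 0 < (B : ℝ) / A := div_pos (by linarith) hAr0
  have hgl : (g : ℝ) * log 2 ≤ g' * (2 * log 2) := by
    have := mul_le_mul_of_nonneg_right hggr (show 0 ≤ log 2 by linarith)
    linarith
  have h1 : (g' : ℝ) * (t * (kb + l) / (4 * N)) ≤
      g' * (2 * log 2 + W + l * log 2 + t * ((B : ℝ) / A) / 2) + LT := by
    rw [hLT]
    have e1 : (g' : ℝ) * r * (t * (1 / 2 - 1 / (4 * N))) +
        g' * E * (t * ((B : ℝ) / A / 2 - 1 / (4 * N))) =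
        g' * ((r * t + E * (t * ((B : ℝ) / A))) / 2) - g' * (t * (r + E) / (4 * N)) := by
      field_simp
      ring
    rw [hrEr] at e1
    have e2 : (g' : ℝ) * ((r * t + E * (t * ((B : ℝ) / A))) / 2) ≤
        g' * (((kb + l) * log 2 + (t * ((B : ℝ) / A) + (kb + l) * log 2)) / 2) :=
      mul_le_mul_of_nonneg_left (by linarith) hg0
    have e3 : (g' : ℝ) * (((kb + l) * log 2 + (t * ((B : ℝ) / A) + (kb + l) * log 2)) / 2) =
        g' * kb * log 2 + g' * (l * log 2 + t * ((B : ℝ) / A) / 2) := by ring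
    have e4 : (g' : ℝ) * (2 * log 2 + W + l * log 2 + t * ((B : ℝ) / A) / 2) =
        g' * (2 * log 2) + g' * W + g' * (l * log 2 + t * ((B : ℝ) / A) / 2) := by ring
    rw [e4]
    linarith
  -- the bracket
  have hW' : W ≤ log (36 * (kb : ℝ) ^ 2) := by
    rw [hW]
    apply log_le_log (by positivity)
    have e1 : (r : ℝ) + 1 ≤ 3 * kb := by linarith
    have e2 : (E : ℝ) + 1 ≤ 3 * kb := by linarith
    have e3 : ((r : ℝ) + 1) * (E + 1) ≤ (3 * kb) * (3 * kb) :=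
      mul_le_mul e1 e2 (by positivity) (by positivity)
    calc 4 * ((r : ℝ) + 1) * (E + 1) = 4 * (((r : ℝ) + 1) * (E + 1)) := by ring
      _ ≤ 4 * ((3 * kb) * (3 * kb)) := by linarith
      _ = 36 * (kb : ℝ) ^ 2 := by ring
  have hl' : (l : ℝ) * log 2 ≤ log (128 * 2 ^ K * (kb : ℝ) ^ 2) := by
    rw [← log_pow]
    apply log_le_log (by positivity)
    exact_mod_cast hl2
  have hHV : t * ((B : ℝ) / A) / 2 ≤ log 2 := by
    have e1 : t * ((B : ℝ) / A) / 2 = log 2 * (((A : ℝ) + B) / (2 * A)) := by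
      rw [ht]
      field_simp
    have e2 : ((A : ℝ) + B) / (2 * A) ≤ 1 := by
      rw [div_le_one (by linarith)]
      linarith
    rw [e1]
    exact mul_le_of_le_one_right (by linarith) e2
  have hsum : 2 * log 2 + log (36 * (kb : ℝ) ^ 2) + log (128 * 2 ^ K * (kb : ℝ) ^ 2) + log 2 =
      log (36864 * 2 ^ K * (kb : ℝ) ^ 4) := by
    have e1 : 2 * log 2 = log (2 ^ 2) := by
      rw [log_pow]
      norm_num
    rw [e1, ← log_mul (by positivity) (by positivity), ← log_mul (by positivity) (by positivity),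
      ← log_mul (by positivity) (by positivity)]
    congr 1
    ring
  have hbr : 2 * log 2 + W + l * log 2 + t * ((B : ℝ) / A) / 2 + 1 ≤ t * (kb + l) / (4 * N) := by
    have e1 : 2 * log 2 ≤ t := by
      rw [ht]
      have e2 : (2 : ℝ) ≤ ((A : ℝ) + B) / B := by
        rw [le_div_iff₀ (by linarith)]
        linarith
      rw [mul_comm]
      exact mul_le_mul_of_nonneg_left e2 (by linarith)
    have e3 : 2 * log 2 * kb / (4 * N) ≤ t * (kb + l) / (4 * N) := by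
      apply div_le_div_of_nonneg_right _ (by positivity)
      apply mul_le_mul e1 _ (by positivity) (by linarith)
      have : (0 : ℝ) ≤ l := Nat.cast_nonneg _
      linarith
    linarith
  have h4 := mul_le_mul_of_nonneg_left hbr hg0
  have h5 : (g' : ℝ) ≤ LT := by linarith
  rw [hLT] at h5
  linarith

/-- the size of a chunk -/
theorem chunk_le {K kb l u : ℕ} (hK : 1 ≤ K) (hkb : 1 ≤ kb) (hl : l ≤ kb) (hu : K * u = l + 1)
    (hl2 : 2 ^ l ≤ 128 * 2 ^ K * kb ^ 2) :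
    ((2 * K * (kb + l) * 2 ^ u : ℕ) : ℝ) ≤ 2048 * K * (kb : ℝ) ^ (1 + 2 / (K : ℝ)) := by
  have hKr : (1 : ℝ) ≤ K := by exact_mod_cast hK
  have hK0 : (0 : ℝ) < K := by linarith
  have hkbr : (1 : ℝ) ≤ kb := by exact_mod_cast hkb
  have hkb0 : (0 : ℝ) < kb := by linarith
  have hlr : (l : ℝ) ≤ kb := by exact_mod_cast hl
  have h1 : (2 : ℝ) ^ u ≤ 512 * (kb : ℝ) ^ (2 / (K : ℝ)) := by
    have e1 : ((2 : ℝ) ^ u) ^ K ≤ (512 * (kb : ℝ) ^ (2 / (K : ℝ))) ^ K := by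
      have e2 : ((kb : ℝ) ^ (2 / (K : ℝ))) ^ K = (kb : ℝ) ^ 2 := by
        rw [← rpow_natCast, ← rpow_mul hkb0.le, div_mul_cancel₀ _ hK0.ne', rpow_ofNat]
      have e3 : ((2 : ℝ) ^ u) ^ K = 2 * 2 ^ l := by
        rw [← pow_mul, mul_comm u K, hu, pow_succ, mul_comm]
      have e4 : (2 : ℝ) ^ l ≤ 128 * 2 ^ K * (kb : ℝ) ^ 2 := by exact_mod_cast hl2
      have e5 : (256 : ℝ) ≤ 256 ^ K := by
        calc (256 : ℝ) = 256 ^ 1 := (pow_one _).symm
          _ ≤ 256 ^ K := pow_le_pow_right₀ (by norm_num) hK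
      rw [e3, mul_pow, e2]
      have e6 : (512 : ℝ) ^ K = 256 ^ K * 2 ^ K := by rw [← mul_pow]; norm_num
      rw [e6]
      calc 2 * (2 : ℝ) ^ l ≤ 2 * (128 * 2 ^ K * (kb : ℝ) ^ 2) := by linarith
        _ = 256 * (2 ^ K * (kb : ℝ) ^ 2) := by ring
        _ ≤ 256 ^ K * (2 ^ K * (kb : ℝ) ^ 2) := mul_le_mul_of_nonneg_right e5 (by positivity)
        _ = _ := by ring
    exact (pow_le_pow_iff_left₀ (by positivity) (by positivity) (by omega)).1 e1
  rw [rpow_add hkb0, rpow_one]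
  push_cast
  have h2 : (2 : ℝ) * K * (kb + l) ≤ 4 * K * kb := by
    nlinarith
  calc (2 : ℝ) * K * (kb + l) * 2 ^ u ≤ 4 * K * kb * (512 * (kb : ℝ) ^ (2 / (K : ℝ))) :=
        mul_le_mul h2 h1 (by positivity) (by positivity)
    _ = _ := by ring

/-- the size of a chunk in terms of the size of the circuit -/
theorem chunk_le' {K σ p kb : ℕ} {M C' : ℝ} (hK : 1 ≤ K) (hσ : 1 ≤ σ) (hC' : 0 ≤ C')
    (hM : M ≤ C' * (kb : ℝ) ^ (1 + 2 / (K : ℝ)))
    (hkb : (kb : ℝ) ≤ 512 * K * (90 * (σ : ℝ)) ^ p * log (18 * σ)) :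
    M ≤ C' * ((512 * K) ^ 3 * (27 * (K : ℝ) ^ 3)) *
      (90 * (σ : ℝ)) ^ ((1 + 2 / (K : ℝ)) * p + 1 / K) := by
  have hKr : (1 : ℝ) ≤ K := by exact_mod_cast hK
  have hK0 : (0 : ℝ) < K := by linarith
  have hσr : (1 : ℝ) ≤ σ := by exact_mod_cast hσ
  have hl2 := log_two_gt_d9
  obtain ⟨u, hu⟩ : ∃ u, u = log (18 * σ) := ⟨_, rfl⟩
  have hu1 : 2 ≤ u := by
    have h1 : log (2 ^ 4) ≤ log (18 * σ) := log_le_log (by norm_num) (by linarith)
    rw [log_pow] at h1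
    rw [hu]
    push_cast at h1
    linarith
  rw [← hu] at hkb
  set x : ℝ := 1 + 2 / (K : ℝ) with hx
  have hx0 : 0 ≤ x := by rw [hx]; positivity
  have hx3 : x ≤ 3 := by
    rw [hx]
    have : 2 / (K : ℝ) ≤ 2 := by
      rw [div_le_iff₀ hK0]
      linarith
    linarith
  have h1 : (kb : ℝ) ^ x ≤ (512 * K) ^ x * ((90 * (σ : ℝ)) ^ (x * p) * u ^ x) := by
    calc (kb : ℝ) ^ x ≤ (512 * K * (90 * (σ : ℝ)) ^ p * u) ^ x :=
          rpow_le_rpow (Nat.cast_nonneg _) hkb hx0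
      _ = (512 * K) ^ x * ((90 * (σ : ℝ)) ^ (x * p) * u ^ x) := by
          rw [mul_rpow (by positivity) (by linarith), mul_rpow (by positivity) (by positivity),
            mul_assoc]
          congr 2
          rw [← rpow_natCast, ← rpow_mul (by positivity), mul_comm x]
  have h2 : (512 * (K : ℝ)) ^ x ≤ (512 * K) ^ 3 := by
    calc (512 * (K : ℝ)) ^ x ≤ (512 * K) ^ (3 : ℝ) :=
          rpow_le_rpow_of_exponent_le (by linarith) hx3
      _ = _ := by norm_cast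
  have h3 : u ^ x ≤ 27 * (K : ℝ) ^ 3 * (90 * (σ : ℝ)) ^ (1 / (K : ℝ)) := by
    calc u ^ x ≤ u ^ (3 : ℝ) := rpow_le_rpow_of_exponent_le (by linarith) hx3
      _ = u ^ 3 := by norm_cast
      _ ≤ 27 * (K : ℝ) ^ 3 * (18 * (σ : ℝ)) ^ (1 / (K : ℝ)) := by
          rw [hu]
          exact log_pow_three hK (by linarith)
      _ ≤ _ := by
          apply mul_le_mul_of_nonneg_left _ (by positivity)
          exact rpow_le_rpow (by positivity) (by linarith) (by positivity)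
  refine hM.trans ?_
  rw [mul_assoc]
  apply mul_le_mul_of_nonneg_left _ hC'
  refine h1.trans ?_
  rw [rpow_add (show (0 : ℝ) < 90 * σ by linarith)]
  calc (512 * (K : ℝ)) ^ x * ((90 * (σ : ℝ)) ^ (x * p) * u ^ x) ≤
        (512 * K) ^ 3 * ((90 * (σ : ℝ)) ^ (x * p) *
          (27 * (K : ℝ) ^ 3 * (90 * (σ : ℝ)) ^ (1 / (K : ℝ)))) := by
        apply mul_le_mul h2 _ (by positivity) (by positivity)
        exact mul_le_mul_of_nonneg_left h3 (by positivity)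
    _ = _ := by ring

/-- **the parameters and the final bound**, with a constant which depends on `K` only -/
theorem xdf_final (K : ℕ) (hK : 1 ≤ K) : ∃ C : ℝ, 1 ≤ C ∧ ∀ (k n : ℕ) (ta q : ℝ) (S w w0 : ℕ),
    1 ≤ ta → 2 ≤ S → 1 ≤ w → 1 ≤ w0 →
    ∃ (θ : ℝ) (kb l u : ℕ) (X Y : ℕ → ℝ), 0 < θ ∧ θ < 1 ∧ 1 ≤ kb ∧ K * u = l + 1 ∧
      4 * ((kb + l : ℕ) : ℝ) ^ 2 * 2 ^ (1 / θ) ≤ 2 ^ l ∧
      4 * ((kb + l : ℕ) : ℝ) ^ 2 * 2 ^ (1 / (1 - θ)) ≤ 2 ^ l ∧
      X 0 = 1 ∧ Y 0 = 1 ∧ (∀ i, 0 < X i) ∧ (∀ i, 0 < Y i) ∧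
      (∀ d ≤ n, ∀ i ≤ 2 * k, NumD d (S * (d + 1) ^ (8 * (w0 + w) + 16)) (2 ^ (1 / θ))
        (2 ^ (1 / (1 - θ))) (X i) (Y i) (X (i + 1)) (Y (i + 1))) ∧
      ((4 * ((kb + l : ℕ) : ℝ) ≤ q → ∀ g : ℕ, 1 ≤ g → g * (2 * K * (kb + l) * 2 ^ u) ≤ n →
        ∃ g' r E : ℕ, g' ≤ g ∧ g ≤ 2 * g' ∧ r + E = kb + l ∧
          (2 ^ (1 / θ) : ℝ) ^ r ≤ 2 ^ (kb + l) ∧
          (2 ^ (1 / (1 - θ)) : ℝ) ^ E ≤ 2 ^ (1 / (1 - θ)) * 2 ^ (kb + l) ∧
          (2 : ℝ) ^ (g' * kb) ≤ 2 ^ g * ((4 * (r + 1) * (E + 1)) ^ g' *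
            (ta * (((g' * (kb + l) : ℕ) + 1 : ℝ) ^ 16
            * (X (2 * k + 1) ^ (g' * r) * Y (2 * k + 1) ^ (g' * E)))))) →
        (n : ℝ) ≤ C * Real.log (2 * n * ta) * (C * (Real.log S + (w + w0) * Real.log (2 * n))) ^
          ((1 + 2 / (K : ℝ)) * ((Nat.fib (2 * k + 4) : ℝ) - 2) + 1 / K) ∨
        q ≤ (C * (Real.log S + (w + w0) * Real.log (2 * n))) ^
          ((Nat.fib (2 * k + 4) : ℝ) - 1)) := by
  have hKr : (1 : ℝ) ≤ K := by exact_mod_cast hK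
  have hK0 : (0 : ℝ) < K := by linarith
  obtain ⟨C1, hC1⟩ : ∃ C1 : ℝ, C1 = 2048 * K * ((512 * K) ^ 3 * (27 * (K : ℝ) ^ 3)) := ⟨_, rfl⟩
  have hC10 : 0 ≤ C1 := by rw [hC1]; positivity
  obtain ⟨C, hC⟩ : ∃ C : ℝ, C = 60 * C1 + 8 * 512 * K * 3150 := ⟨_, rfl⟩
  have hCK : 8 * 512 * K * 3150 ≤ C := by linarith
  have hC60 : 60 * C1 ≤ C := by
    have : (0 : ℝ) ≤ 8 * 512 * K * 3150 := by positivity
    linarith
  have hC3 : (3150 : ℝ) ≤ C := by linarith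
  refine ⟨C, by linarith, ?_⟩
  intro k n ta q S w w0 hta hS hw hw0
  obtain ⟨p, hp⟩ : ∃ p : ℕ, p = Nat.fib (2 * k + 4) - 2 := ⟨_, rfl⟩
  have hfib : 3 ≤ Nat.fib (2 * k + 4) := by
    have h1 : Nat.fib 4 ≤ Nat.fib (2 * k + 4) := Nat.fib_mono (by omega)
    exact h1
  have hp1 : 1 ≤ p := by omega
  have hpf : (Nat.fib (2 * k + 4) : ℝ) = p + 2 := by
    have : Nat.fib (2 * k + 4) = p + 2 := by omega
    rw [this]
    push_cast
    rfl
  have hSr : (2 : ℝ) ≤ S := by exact_mod_cast hS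
  have hl2 := log_two_gt_d9
  have hlS : log 2 ≤ log S := log_le_log (by norm_num) hSr
  obtain ⟨κ, hκ⟩ : ∃ κ : ℝ, κ = S * (n + 1 : ℝ) ^ (16 * (w + w0)) := ⟨_, rfl⟩
  have hn1 : (1 : ℝ) ≤ n + 1 := by
    have : (0 : ℝ) ≤ n := Nat.cast_nonneg _
    linarith
  have hκ1 : 1 ≤ κ := by
    rw [hκ]
    have := one_le_pow₀ (n := 16 * (w + w0)) hn1
    nlinarith
  have hlκ : log κ = log S + 16 * (w + w0) * log (n + 1) := by
    rw [hκ, log_mul (by positivity) (by positivity), log_pow]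
    push_cast
    ring
  obtain ⟨σ, hσ⟩ : ∃ σ : ℕ, σ = ⌈2 * log κ⌉₊ := ⟨_, rfl⟩
  have hlκ0 : 0.6931 < log κ := by
    rw [hlκ]
    have : 0 ≤ (16 : ℝ) * (w + w0) * log (n + 1) :=
      mul_nonneg (by positivity) (log_nonneg hn1)
    linarith
  have hσ1 : 2 * log κ ≤ σ := by rw [hσ]; exact Nat.le_ceil _
  have hσ2 : (σ : ℝ) ≤ 2 * log κ + 1 := by
    rw [hσ]
    exact (Nat.ceil_lt_add_one (by linarith)).le
  have hσ0 : 1 ≤ σ := by
    have : (0 : ℝ) < σ := by linarith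
    have : 0 < σ := by exact_mod_cast this
    omega
  obtain ⟨A, B, s, X, Y, hs, hB, hBA, hA2, hsA, hX0, hY0, hXp, hYp, hch, hXL, hYL⟩ :=
    growth_chain (2 * k + 1) σ (by omega) hσ0 κ hκ1 (by linarith)
  rw [show 2 * k + 1 + 3 = 2 * k + 4 by ring, ← hp] at hsA
  have hA : 1 ≤ A := hB.trans hBA
  have hAr : (1 : ℝ) ≤ A := by exact_mod_cast hA
  have hBr : (1 : ℝ) ≤ B := by exact_mod_cast hB
  have hBAr : (B : ℝ) ≤ A := by exact_mod_cast hBA
  have hA2r : (A : ℝ) ≤ 2 * B := by exact_mod_cast hA2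
  obtain ⟨N, hN⟩ : ∃ N, N = s * A := ⟨_, rfl⟩
  have hN1 : 1 ≤ N := by rw [hN]; exact Nat.mul_pos hs hA
  have hNr : ((s : ℝ) * A) = N := by rw [hN]; push_cast; rfl
  rw [← hN] at hsA
  rw [hNr] at hXL hYL
  obtain ⟨Lg, hLg⟩ : ∃ Lg, Lg = Nat.log 2 N + 1 := ⟨_, rfl⟩
  obtain ⟨kb, hkb⟩ : ∃ kb, kb = 128 * K * N * Lg := ⟨_, rfl⟩
  have hkbK : 128 * K ≤ kb := by
    have h1 : 1 ≤ N * Lg := Nat.mul_pos hN1 (by omega)
    rw [hkb, mul_assoc]
    exact Nat.le_mul_of_pos_right _ h1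
  have hkb15 : 15 ≤ kb := by omega
  obtain ⟨l, u, hlu, hl1, hl3, hl4⟩ := exists_l' hK hkbK
  obtain ⟨t, ht⟩ : ∃ t : ℝ, t = log 2 * (((A : ℝ) + B) / B) := ⟨_, rfl⟩
  obtain ⟨θ, hθ⟩ : ∃ θ : ℝ, θ = (B : ℝ) / (A + B) := ⟨_, rfl⟩
  have hAB0 : (0 : ℝ) < A + B := by linarith
  have hθ0 : 0 < θ := by rw [hθ]; positivity
  have hθ1 : θ < 1 := by
    rw [hθ, div_lt_one hAB0]
    linarith
  have hθi : 1 / θ = ((A : ℝ) + B) / B := by
    rw [hθ, one_div_div]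
  have h1θ : 1 - θ = (A : ℝ) / (A + B) := by
    rw [hθ]
    field_simp
    ring
  have h1θi : 1 / (1 - θ) = ((A : ℝ) + B) / A := by
    rw [h1θ, one_div_div]
  have hHU : (2 : ℝ) ^ (1 / θ) = exp t := by
    rw [rpow_def_of_pos (by norm_num), hθi, ht]
  have hHV : (2 : ℝ) ^ (1 / (1 - θ)) = exp (t * ((B : ℝ) / A)) := by
    rw [rpow_def_of_pos (by norm_num), h1θi, ht]
    congr 1
    field_simp
  have ht1 : 1 ≤ t := by
    have h1 : (2 : ℝ) ≤ ((A : ℝ) + B) / B := by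
      rw [le_div_iff₀ (by linarith)]
      linarith
    have h2 := mul_le_mul_of_nonneg_left h1 (show (0 : ℝ) ≤ log 2 by linarith)
    rw [ht]
    linarith
  have hHU8 : (2 : ℝ) ^ (1 / θ) ≤ 8 := by
    rw [hθi]
    have h1 : ((A : ℝ) + B) / B ≤ 3 := by
      rw [div_le_iff₀ (by linarith)]
      linarith
    calc (2 : ℝ) ^ (((A : ℝ) + B) / B) ≤ 2 ^ (3 : ℝ) := rpow_le_rpow_of_exponent_le (by norm_num) h1
      _ = 8 := by norm_num
  have hHV8 : (2 : ℝ) ^ (1 / (1 - θ)) ≤ 8 := by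
    rw [h1θi]
    have h1 : ((A : ℝ) + B) / A ≤ 3 := by
      rw [div_le_iff₀ (by linarith)]
      linarith
    calc (2 : ℝ) ^ (((A : ℝ) + B) / A) ≤ 2 ^ (3 : ℝ) := rpow_le_rpow_of_exponent_le (by norm_num) h1
      _ = 8 := by norm_num
  have hside : ∀ H : ℝ, H ≤ 8 → 4 * ((kb + l : ℕ) : ℝ) ^ 2 * H ≤ 2 ^ l := by
    intro H hH
    have h1 : ((kb + l : ℕ) : ℝ) ≤ 2 * kb := by
      have : (l : ℝ) ≤ kb := by exact_mod_cast hl1
      push_cast
      linarith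
    have h2 : ((kb + l : ℕ) : ℝ) ^ 2 ≤ (2 * kb) ^ 2 := pow_le_pow_left₀ (Nat.cast_nonneg _) h1 2
    have h3 : (128 : ℝ) * kb ^ 2 ≤ 2 ^ l := by exact_mod_cast hl3
    calc 4 * ((kb + l : ℕ) : ℝ) ^ 2 * H ≤ 4 * ((kb + l : ℕ) : ℝ) ^ 2 * 8 :=
          mul_le_mul_of_nonneg_left hH (by positivity)
      _ ≤ 128 * (kb : ℝ) ^ 2 := by
          have : (2 * (kb : ℝ)) ^ 2 = 4 * kb ^ 2 := by ring
          linarith
      _ ≤ _ := h3
  refine ⟨θ, kb, l, u, fun i => X i ^ t, fun i => Y i ^ t, hθ0, hθ1, by omega, hlu, hside _ hHU8,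
    hside _ hHV8, ?_, ?_, fun i => rpow_pos_of_pos (hXp i) _, fun i => rpow_pos_of_pos (hYp i) _,
    ?_, ?_⟩
  · show X 0 ^ t = 1
    rw [hX0, one_rpow]
  · show Y 0 ^ t = 1
    rw [hY0, one_rpow]
  · intro d hd i hi
    have h1 := numAll_rpow (exp_pos 1).le (exp_pos _).le hκ1 (hXp i).le (hYp i).le
      (hXp (i + 1)).le (hYp (i + 1)).le ht1 (hch i (by omega))
    rw [← exp_one_rpow t] at hHU
    rw [mul_comm, exp_mul] at hHV
    rw [← hHU, ← hHV] at h1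
    intro b e hbe _
    rcases h1 b e hbe with h2 | h2 | h2
    · exact Or.inr (Or.inl h2)
    · exact Or.inl h2
    · refine Or.inr (Or.inr (le_trans ?_ h2))
      apply mul_le_mul_of_nonneg_right
      · rw [hκ]
        apply mul_le_mul_of_nonneg_left _ (Nat.cast_nonneg _)
        have h3 : ((d : ℝ) + 1) ≤ n + 1 := by
          have : (d : ℝ) ≤ n := by exact_mod_cast hd
          linarith
        have h4 : (0 : ℝ) ≤ (d : ℝ) + 1 := by positivity
        calc ((d : ℝ) + 1) ^ (8 * (w0 + w) + 16) ≤ ((n : ℝ) + 1) ^ (8 * (w0 + w) + 16) :=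
              pow_le_pow_left₀ h4 h3 _
          _ ≤ ((n : ℝ) + 1) ^ (16 * (w + w0)) := pow_le_pow_right₀ hn1 (by omega)
      · have h3 := rpow_pos_of_pos (hXp i) t
        have h4 := rpow_pos_of_pos (hYp i) t
        positivity
  intro hg
  rcases Nat.eq_zero_or_pos n with hn0 | hn0
  · subst hn0
    left
    simp
  have hnr : (1 : ℝ) ≤ n := by exact_mod_cast hn0
  have hlT : 0 ≤ log ta := log_nonneg hta
  obtain ⟨Λ, hΛ⟩ : ∃ Λ : ℝ, Λ = log S + (w + w0) * log (2 * n) := ⟨_, rfl⟩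
  have hl2n : log 2 ≤ log (2 * n) := log_le_log (by norm_num) (by linarith)
  have hln : log (n + 1) ≤ log (2 * n) := log_le_log (by linarith) (by linarith)
  have hww : (2 : ℝ) ≤ w + w0 := by
    have h1 : (1 : ℝ) ≤ w := by exact_mod_cast hw
    have h2 : (1 : ℝ) ≤ w0 := by exact_mod_cast hw0
    linarith
  have hwl : 2 * log 2 ≤ (w + w0) * log (2 * n) :=
    mul_le_mul hww hl2n (by linarith) (by linarith)
  have hΛ1 : 1 ≤ Λ := by rw [hΛ]; linarith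
  have hlκΛ : log κ ≤ 17 * Λ := by
    rw [hlκ, hΛ]
    have h1 : (16 : ℝ) * ((w + w0) * log (n + 1)) ≤ 16 * ((w + w0) * log (2 * n)) :=
      mul_le_mul_of_nonneg_left (mul_le_mul_of_nonneg_left hln (by linarith)) (by norm_num)
    have h3 : 0 ≤ ((w : ℝ) + w0) * log (2 * n) := by linarith
    linarith
  have hσΛ : (σ : ℝ) ≤ 35 * Λ := by linarith
  have hkble := kb_le' hN1 hLg hp1 hσ0 hkb hsA
  have hσr : (1 : ℝ) ≤ σ := by exact_mod_cast hσ0
  have h90 : 90 * (σ : ℝ) ≤ 3150 * Λ := by linarith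
  rw [← hΛ, hpf]
  by_cases hq : 4 * ((kb + l : ℕ) : ℝ) ≤ q
  swap
  · right
    push Not at hq
    have h1 : ((kb + l : ℕ) : ℝ) ≤ 2 * kb := by
      have : (l : ℝ) ≤ kb := by exact_mod_cast hl1
      push_cast
      linarith
    have h2 : log (18 * (σ : ℝ)) ≤ 90 * σ := by
      have := log_le_sub_one_of_pos (show (0 : ℝ) < 18 * σ by linarith)
      linarith
    have h3 : (kb : ℝ) ≤ 512 * K * (90 * (σ : ℝ)) ^ (p + 1) := by
      rw [pow_succ]
      refine hkble.trans ?_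
      have := mul_le_mul_of_nonneg_left h2
        (show (0 : ℝ) ≤ 512 * K * (90 * (σ : ℝ)) ^ p by positivity)
      linarith
    have h4 : (90 * (σ : ℝ)) ^ (p + 1) ≤ (3150 * Λ) ^ (p + 1) :=
      pow_le_pow_left₀ (by positivity) h90 _
    have h5 : (8 : ℝ) * 512 * K ≤ (8 * 512 * K) ^ (p + 1) := by
      calc (8 : ℝ) * 512 * K = (8 * 512 * K) ^ 1 := (pow_one _).symm
        _ ≤ _ := pow_le_pow_right₀ (by linarith) (by omega)
    have h6 : q ≤ (C * Λ) ^ (p + 1) := by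
      calc q ≤ 8 * kb := by linarith
        _ ≤ 8 * (512 * K * (90 * (σ : ℝ)) ^ (p + 1)) := by linarith
        _ = (8 * 512 * K) * (90 * (σ : ℝ)) ^ (p + 1) := by ring
        _ ≤ (8 * 512 * K) ^ (p + 1) * (3150 * Λ) ^ (p + 1) :=
          mul_le_mul h5 h4 (by positivity) (by positivity)
        _ = ((8 * 512 * K * 3150) * Λ) ^ (p + 1) := by
          rw [← mul_pow]
          congr 1
          ring
        _ ≤ (C * Λ) ^ (p + 1) := pow_le_pow_left₀ (by positivity)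
          (mul_le_mul_of_nonneg_right hCK (by linarith)) _
    refine h6.trans (le_of_eq ?_)
    rw [← rpow_natCast]
    congr 1
    push_cast
    ring
  left
  -- the number of chunks
  obtain ⟨M, hM⟩ : ∃ M : ℕ, M = 2 * K * (kb + l) * 2 ^ u := ⟨_, rfl⟩
  have hM1 : 1 ≤ M := by
    rw [hM]
    exact Nat.mul_pos (Nat.mul_pos (by omega) (by omega)) (by positivity)
  have hMkb : kb + l ≤ M := by
    rw [hM]
    calc kb + l = 1 * (kb + l) * 1 := by ring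
      _ ≤ 2 * K * (kb + l) * 2 ^ u :=
        Nat.mul_le_mul (Nat.mul_le_mul_right _ (by omega)) Nat.one_le_two_pow
  obtain ⟨g, hgd⟩ : ∃ g : ℕ, g = n / M := ⟨_, rfl⟩
  have hgM : g * M ≤ n := by
    rw [hgd]
    exact Nat.div_mul_le_self n M
  have hgle : (g : ℝ) ≤ 2 * (log ta + 16 * log (2 * n)) := by
    rcases Nat.eq_zero_or_pos g with hg0 | hg0
    · rw [hg0, Nat.cast_zero]
      linarith
    · have hgn' := hgM
      rw [hM] at hgn'
      obtain ⟨g', r, E, hgg1, hgg2, hrE, hr, hE, hineq⟩ := hg hq g hg0 hgn'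
      rw [hHU] at hr
      rw [hHV] at hE
      have hineq' : (2 : ℝ) ^ (g' * kb) ≤ 2 ^ g * ((4 * (r + 1) * (E + 1)) ^ g' *
        (ta * (((g' * (kb + l) : ℕ) + 1 : ℝ) ^ 16 * (exp (t * (1 / 2 - 1 / (4 * N))) ^ (g' * r) *
          exp (t * ((B : ℝ) / A / 2 - 1 / (4 * N))) ^ (g' * E))))) := by
        have e1 : X (2 * k + 1) ^ t = exp (t * (1 / 2 - 1 / (4 * N))) := by
          rw [hXL, ← exp_mul, mul_comm]
        have e2 : Y (2 * k + 1) ^ t = exp (t * ((B : ℝ) / A / 2 - 1 / (4 * N))) := by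
          rw [hYL, ← exp_mul, mul_comm]
        rw [← e1, ← e2]
        exact hineq
      have h1 := g_le_xdf hN1 hB hBA ht hta hkb15 hl1 hl4 hgg2 (kb_large' hK hN1 hLg hkb) hrE hr hE
        hineq'
      have h2 : ((g' * (kb + l) : ℕ) + 1 : ℝ) ≤ 2 * n := by
        have h3 : g' * (kb + l) ≤ n := (Nat.mul_le_mul hgg1 hMkb).trans hgM
        have h4 : ((g' * (kb + l) : ℕ) : ℝ) ≤ n := by exact_mod_cast h3
        linarith
      have h3 : log ((g' * (kb + l) : ℕ) + 1 : ℝ) ≤ log (2 * n) := log_le_log (by positivity) h2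
      linarith
  have hnle : (n : ℝ) ≤ (g + 1) * M := by
    have h1 := Nat.div_add_mod n M
    have h2 := Nat.mod_lt n (show 0 < M by omega)
    rw [← hgd] at h1
    have h3 : n ≤ (g + 1) * M := by
      have : (g + 1) * M = M * g + M := by ring
      omega
    exact_mod_cast h3
  have hMle := chunk_le hK (by omega) hl1 hlu hl4
  rw [← hM] at hMle
  have hMle' := chunk_le' hK hσ0 (by positivity) hMle hkble
  rw [← hC1] at hMle'
  have he0 : (0 : ℝ) ≤ (1 + 2 / (K : ℝ)) * p + 1 / K := by positivity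
  have h90' : (90 * (σ : ℝ)) ^ ((1 + 2 / (K : ℝ)) * p + 1 / K) ≤
      (C * Λ) ^ ((1 + 2 / (K : ℝ)) * p + 1 / K) := by
    apply rpow_le_rpow (by positivity) _ he0
    exact h90.trans (mul_le_mul_of_nonneg_right hC3 (by linarith))
  have hlog : log (2 * n * ta) = log (2 * n) + log ta := log_mul (by positivity) (by linarith)
  have hpe : ((p : ℝ) + 2 - 2) = p := by ring
  rw [hlog, hpe]
  have h1 : (g : ℝ) + 1 ≤ 60 * (log (2 * n) + log ta) := by linarith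
  calc (n : ℝ) ≤ (g + 1) * M := hnle
    _ ≤ (60 * (log (2 * n) + log ta)) * (C1 * (C * Λ) ^ ((1 + 2 / (K : ℝ)) * p + 1 / K)) := by
      apply mul_le_mul h1 _ (Nat.cast_nonneg _)
      · exact mul_nonneg (by norm_num) (by linarith)
      · exact hMle'.trans (mul_le_mul_of_nonneg_left h90' hC10)
    _ = (60 * C1) * (log (2 * n) + log ta) * (C * Λ) ^ ((1 + 2 / (K : ℝ)) * p + 1 / K) := by
      ring
    _ ≤ _ := by
      apply mul_le_mul_of_nonneg_right _ (rpow_nonneg (by positivity) _)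
      exact mul_le_mul_of_nonneg_right hC60 (by linarith)

end Pool.XDF
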