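import Pool.Agent.XDA.Iso

/-!
# Pairs of a word and an exponent vector, chunk by chunk
-/

set_option autoImplicit false
set_option linter.unusedSectionVars false
set_option linter.unusedSimpArgs false

namespace Pool.XDF

open Finset Pool.XD Pool.XDA

section pairs

variable {L W : Type} [Fintype L] [DecidableEq L] [Fintype W] [DecidableEq W]
  (ty : L → Bool) (S : W → Finset L)

/-- good exponent vectors for every word, rows and columns -/
structure Ch (LU LV r E : ℕ) where
  /-- the good exponent vectors -/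
  Gs : W → Finset (Box ty (LU - r) LV)
  /-- the row -/
  R1 : W → Box ty (LU - r) LV → Box ty LU LV
  /-- the column -/
  Q1 : W → Box ty (LU - r) LV → Box ty (LU - r) (LV + E)
  hR : ∀ s δ, (R1 s δ).1 = plus ty S true s δ.1
  hQ : ∀ s δ, (Q1 s δ).1 = plus ty S false s δ.1
  good : ∀ s, ∀ δ ∈ Gs s, Gd ty S true s δ.1 ∧ Gd ty S false s δ.1

open Classical in
theorem exists_ch {LU LV r E : ℕ} {HU HV : ℝ} (hr : r ≤ LU)
    (hcU : ∀ s, ((S s).filter fun l => ty l = true).card = r)
    (hcV : ∀ s, ((S s).filter fun l => ty l = false).card = E)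
    (hHU : 1 ≤ HU) (hHV : 1 ≤ HV)
    (hU : HU * LU ≤ nU ty + LU - 1) (hV : HV * LV ≤ nV ty + LV - 1)
    (hsU : Sparse ty S true HU) (hsV : Sparse ty S false HV) :
    ∃ c : Ch ty S LU LV r E, ∀ s,
      (((nU ty).multichoose (LU - r) * (nV ty).multichoose LV : ℕ) : ℝ) / 2 ≤ (c.Gs s).card := by
  have hHU' : HU * (LU - r : ℕ) ≤ nU ty + (LU - r : ℕ) - 1 := by
    rw [Nat.cast_sub hr]
    have h1 : (0 : ℝ) ≤ (HU - 1) * r := mul_nonneg (by linarith) (Nat.cast_nonneg _)
    nlinarith
  refine ⟨⟨fun s => univ.filter fun δ : Box ty (LU - r) LV =>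
    Gd ty S true s δ.1 ∧ Gd ty S false s δ.1,
    fun s δ => ⟨plus ty S true s δ.1, ?_, ?_⟩, fun s δ => ⟨plus ty S false s δ.1, ?_, ?_⟩,
    fun _ _ => rfl, fun _ _ => rfl, fun s δ hδ => (mem_filter.1 hδ).2⟩, fun s => ?_⟩
  · rw [(plus_sum ty S true _ _).1, if_pos rfl, δ.2.1, hcU]
    omega
  · rw [(plus_sum ty S true _ _).2, if_neg (by simp), δ.2.2, add_zero]
  · rw [(plus_sum ty S false _ _).1, if_neg (by simp), δ.2.1, add_zero]
  · rw [(plus_sum ty S false _ _).2, if_pos rfl, δ.2.2, hcV]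
  · rw [← card_box]
    exact card_good ty S (LU - r) LV s hHU hHV hHU' hV hsU hsV

variable {ty S} {LU LV r E : ℕ} (c : Ch ty S LU LV r E)

/-- a word and a good exponent vector -/
def Ch.Pr : Type := {x : W × Box ty (LU - r) LV // x.2 ∈ c.Gs x.1}

noncomputable instance : Fintype c.Pr :=
  inferInstanceAs (Fintype {x : W × Box ty (LU - r) LV // x.2 ∈ c.Gs x.1})

noncomputable instance : DecidableEq c.Pr :=
  inferInstanceAs (DecidableEq {x : W × Box ty (LU - r) LV // x.2 ∈ c.Gs x.1})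

theorem card_Pr {M : ℝ} (h : ∀ s, M ≤ (c.Gs s).card) :
    (Fintype.card W : ℝ) * M ≤ Fintype.card c.Pr := by
  classical
  have h1 : Fintype.card c.Pr = ∑ s : W, (c.Gs s).card := by
    have h0 : Fintype.card c.Pr = Fintype.card {x : W × Box ty (LU - r) LV // x.2 ∈ c.Gs x.1} :=
      rfl
    rw [h0, Fintype.card_subtype, card_filter, Fintype.sum_prod_type]
    refine sum_congr rfl fun s _ => ?_
    rw [← card_filter]
    congr 1
    ext δ
    simp
  rw [h1, ← card_univ]
  push_cast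
  rw [← nsmul_eq_mul, ← sum_const]
  exact sum_le_sum fun s _ => h s

/-- the row of a pair -/
def Ch.R (x : c.Pr) : Box ty LU LV := c.R1 x.1.1 x.1.2

/-- the column of a pair -/
def Ch.Q (x : c.Pr) : Box ty (LU - r) (LV + E) := c.Q1 x.1.1 x.1.2

/-- the row determines the word -/
theorem Ch.wordU (x : c.Pr) (s : W) (h : ∀ l ∈ S s, ty l = true → 1 ≤ (c.R x).1 l) :
    s = x.1.1 := by
  by_contra hne
  obtain ⟨l, h1, h2, h3, h4⟩ := (c.good _ _ x.2).1 s hne
  have h5 := h l h1 h2
  rw [Ch.R, c.hR] at h5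
  simp only [plus] at h5
  rw [h4, if_neg fun h6 => h3 h6.1] at h5
  omega

/-- the column determines the word -/
theorem Ch.wordV (x : c.Pr) (s : W) (h : ∀ l ∈ S s, ty l = false → 1 ≤ (c.Q x).1 l) :
    s = x.1.1 := by
  by_contra hne
  obtain ⟨l, h1, h2, h3, h4⟩ := (c.good _ _ x.2).2 s hne
  have h5 := h l h1 h2
  rw [Ch.Q, c.hQ] at h5
  simp only [plus] at h5
  rw [h4, if_neg fun h6 => h3 h6.1] at h5
  omega

theorem Ch.letU (x : c.Pr) {l : L} (hl : l ∈ S x.1.1) (h : ty l = true) : 1 ≤ (c.R x).1 l := by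
  rw [Ch.R, c.hR]
  simp only [plus]
  rw [if_pos ⟨hl, h⟩]
  omega

theorem Ch.letV (x : c.Pr) {l : L} (hl : l ∈ S x.1.1) (h : ty l = false) : 1 ≤ (c.Q x).1 l := by
  rw [Ch.Q, c.hQ]
  simp only [plus]
  rw [if_pos ⟨hl, h⟩]
  omega

/-- the entry of a pair -/
theorem Ch.gap_self {g : ℕ} (p : Fin g → c.Pr) :
    Adm (cty ty g) (glu fun j => (c.R (p j)).1) (glu fun j => (c.Q (p j)).1) ∧
      gap (cty ty g) (glu fun j => (c.R (p j)).1) (glu fun j => (c.Q (p j)).1) =
        cmon S fun j => (p j).1.1 := by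
  have n1 : (true = false) = False := by simp
  have n2 : (false = true) = False := by simp
  constructor
  · rintro ⟨i, l⟩
    simp only [cty, glu, Ch.R, Ch.Q, c.hR, c.hQ, plus]
    cases h7 : ty l <;> by_cases h9 : l ∈ S (p i).1.1 <;>
      simp only [h9, n1, n2, if_true, if_false, and_true, and_false] <;> omega
  · ext ⟨i, l⟩
    rw [gap_apply, cmon_ap]
    simp only [cty, glu, Ch.R, Ch.Q, c.hR, c.hQ, plus]
    cases h7 : ty l <;> by_cases h9 : l ∈ S (p i).1.1 <;>
      simp only [h9, n1, n2, if_true, if_false, and_true, and_false] <;> omega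

/-- the entries of the words are isolated -/
theorem Ch.iso {g : ℕ} (p p' : Fin g → c.Pr) (s : Fin g → W)
    (hadm : Adm (cty ty g) (glu fun j => (c.R (p j)).1) (glu fun j => (c.Q (p' j)).1))
    (hgap : gap (cty ty g) (glu fun j => (c.R (p j)).1) (glu fun j => (c.Q (p' j)).1) =
      cmon S s) : p = p' := by
  have hg := fun (i : Fin g) (l : L) => (gap_apply (cty ty g) _ _ (i, l)).symm.trans
    ((DFunLike.congr_fun hgap (i, l)).trans (cmon_ap S s i l))
  have ha := fun (i : Fin g) (l : L) => hadm (i, l)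
  simp only [cty, glu, Ch.R, Ch.Q, c.hR, c.hQ, plus] at hg ha
  have hs1 : ∀ i, s i = (p i).1.1 := by
    intro i
    by_contra hne
    obtain ⟨l, h1, h2, h3, h4⟩ := (c.good _ _ (p i).2).1 (s i) hne
    have h5 := hg i l
    rw [if_pos h2, if_pos h1, h4, if_neg fun h6 => h3 h6.1] at h5
    omega
  have hs2 : ∀ i, s i = (p' i).1.1 := by
    intro i
    by_contra hne
    obtain ⟨l, h1, h2, h3, h4⟩ := (c.good _ _ (p' i).2).2 (s i) hne
    have h5 := hg i l
    have h2' : ¬ ty l = true := by rw [h2]; simp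
    rw [if_neg h2', if_pos h1, h4, if_neg fun h6 => h3 h6.1] at h5
    omega
  funext i
  apply Subtype.ext
  apply Prod.ext
  · rw [← hs1 i, hs2 i]
  · apply Subtype.ext
    funext l
    have h5 := hg i l
    have h6 := ha i l
    rw [← hs1 i, ← hs2 i] at h5 h6
    have n1 : (true = false) = False := by simp
    have n2 : (false = true) = False := by simp
    cases h7 : ty l <;> by_cases h9 : l ∈ S (s i) <;>
      simp only [h7, h9, n1, n2, if_true, if_false, and_true, and_false, true_and, false_and]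
        at h5 h6 <;> omega

end pairs

end Pool.XDF
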