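import Pool.Agent.XDS.Test

/-!
# From tests to polynomials in some of the letters

The variable of the clause of a letter `l` becomes `θ X l`, the variables of the clauses in `Z`
become constants, all other variables become `0`. The coefficient field is the field of rational
functions in the variables of the test.
-/

set_option autoImplicit false
set_option linter.unusedSectionVars false

namespace Pool.XDF

open Finset MvPolynomial Pool.SatDet Pool.XDA Pool.XD Pool.XDS Pool.Agent.Helper41.CD
  Pool.Agent.Helper59.CDT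

/-- letters and constants -/
structure Sel (n d : ℕ) (L : Type) where
  /-- the clause of a letter -/
  lt : L → Clause n (d + 1)
  /-- the clauses which become constants -/
  Z : Set (Clause n (d + 1))
  /-- the letters which occur -/
  ok : Set L
  inj : Function.Injective lt
  notZ : ∀ l, lt l ∉ Z

section test

variable {n d : ℕ} {L : Type} [Fintype L] {F : Type} [Field F]

/-- the variable is not set to `0` -/
def adm (G : Sel n d L) (C : Clause n (d + 1)) : Prop :=
  C ∈ G.Z ∨ ∃ l ∈ G.ok, C = G.lt l

open Classical in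
/-- the letter of a clause -/
noncomputable def ex (G : Sel n d L) (C : Clause n (d + 1)) : L →₀ ℕ :=
  if h : ∃ l, C = G.lt l then Finsupp.single h.choose 1 else 0

open Classical in
/-- the coefficient of a clause -/
noncomputable def co (F : Type) [Field F] (G : Sel n d L) (C : Clause n (d + 1)) : KF n d F :=
  if adm G C then algebraMap _ _ (X C : MvPolynomial (Clause n (d + 1)) F) else 0

/-- the letters of a monomial -/
noncomputable def lx (G : Sel n d L) (μ : Clause n (d + 1) →₀ ℕ) : L →₀ ℕ :=
  Finsupp.equivFunOnFinite.symm fun l => μ (G.lt l)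

theorem lx_apply (G : Sel n d L) (μ : Clause n (d + 1) →₀ ℕ) (l : L) : lx G μ l = μ (G.lt l) :=
  rfl

theorem ex_apply (G : Sel n d L) (C : Clause n (d + 1)) (l : L) :
    ex G C l = if C = G.lt l then 1 else 0 := by
  classical
  unfold ex
  split_ifs with h1 h2 h2
  · have h3 : h1.choose = l := G.inj (h1.choose_spec.symm.trans h2)
    rw [h3, Finsupp.single_eq_same]
  · have h3 : l ≠ h1.choose := fun h => h2 (by rw [h]; exact h1.choose_spec)
    exact Finsupp.single_eq_of_ne h3
  · exact absurd ⟨l, h2⟩ h1
  · rfl

theorem sum_ex (G : Sel n d L) (μ : Clause n (d + 1) →₀ ℕ) :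
    ∑ C ∈ μ.support, μ C • ex G C = lx G μ := by
  classical
  ext l
  rw [Finsupp.finsetSum_apply, lx_apply]
  simp only [Finsupp.smul_apply, ex_apply, smul_eq_mul, mul_ite, mul_one, mul_zero]
  rw [Finset.sum_ite_eq']
  split_ifs with h
  · rfl
  · exact (Finsupp.notMem_support_iff.1 h).symm

/-- the substitution -/
noncomputable def sb (F : Type) [Field F] (G : Sel n d L) (C : Clause n (d + 1)) :
    MvPolynomial L (KF n d F) := monomial (ex G C) (co F G C)

theorem sb_degree (G : Sel n d L) (C : Clause n (d + 1)) : (sb F G C).totalDegree ≤ 1 := by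
  classical
  refine (totalDegree_monomial_le _ _).trans ?_
  unfold ex
  split_ifs with h
  · simp [Finsupp.sum_single_index]
  · simp

/-- the polynomial in the letters -/
noncomputable def tst (G : Sel n d L) (f : MvPolynomial (Clause n (d + 1)) F) :
    MvPolynomial L (KF n d F) :=
  aeval (sb F G) (map (algebraMap F (KF n d F)) f)

theorem tst_cls (G : Sel n d L) {w0 w s k : ℕ} {f : MvPolynomial (Clause n (d + 1)) F}
    (hf : f ∈ Cls w0 w s k) : tst G f ∈ Cls w0 w s k :=
  cls_aeval _ (sb_degree G) (Pool.CDep.cls_map _ k hf)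

theorem tst_sum_prod (G : Sel n d L) {T s : ℕ}
    (f : Fin T → Fin s → MvPolynomial (Clause n (d + 1)) F) :
    tst G (∑ i, ∏ j, f i j) = ∑ i, ∏ j, tst G (f i j) := by
  simp only [tst, map_sum, map_prod]

theorem prod_co (G : Sel n d L) (μ : Clause n (d + 1) →₀ ℕ) :
    open Classical in ∏ C ∈ μ.support, co F G C ^ μ C =
      if ∀ C ∈ μ.support, adm G C then
        algebraMap _ _ (monomial μ (1 : F)) else 0 := by
  classical
  split_ifs with h
  · rw [monomial_eq, C_1, one_mul, Finsupp.prod, map_prod]
    refine prod_congr rfl fun C hC => ?_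
    rw [co, if_pos (h C hC), map_pow]
  · push Not at h
    obtain ⟨C, hC, h1⟩ := h
    refine prod_eq_zero hC ?_
    rw [co, if_neg h1, zero_pow (Finsupp.mem_support_iff.1 hC)]

theorem tst_eq (G : Sel n d L) (f : MvPolynomial (Clause n (d + 1)) F) :
    open Classical in tst G f = ∑ μ ∈ f.support, monomial (lx G μ)
      (algebraMap F (KF n d F) (coeff μ f) * if ∀ C ∈ μ.support, adm G C then
        algebraMap _ _ (monomial μ (1 : F)) else 0) := by
  classical
  unfold tst
  conv_lhs => rw [← support_sum_monomial_coeff f]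
  rw [map_sum, map_sum]
  refine sum_congr rfl fun μ _ => ?_
  rw [map_monomial, aeval_monomial, Finsupp.prod]
  have h1 : ∏ C ∈ μ.support, sb F G C ^ μ C =
      monomial (lx G μ) (∏ C ∈ μ.support, co F G C ^ μ C) := by
    rw [← sum_ex, ← prod_monomial]
    refine prod_congr rfl fun C _ => ?_
    rw [sb, monomial_pow]
  rw [h1, prod_co, algebraMap_eq, C_mul_monomial]

theorem coeff_tst (G : Sel n d L) (f : MvPolynomial (Clause n (d + 1)) F) (m : L →₀ ℕ) :
    open Classical in coeff m (tst G f) = algebraMap _ (KF n d F)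
      (∑ μ ∈ f.support with (∀ C ∈ μ.support, adm G C) ∧ lx G μ = m, monomial μ (coeff μ f)) := by
  classical
  rw [tst_eq, coeff_sum, map_sum, sum_filter]
  refine sum_congr rfl fun μ _ => ?_
  rw [coeff_monomial]
  by_cases h1 : lx G μ = m
  · rw [if_pos h1]
    by_cases h2 : ∀ C ∈ μ.support, adm G C
    · rw [if_pos h2, if_pos ⟨h2, h1⟩, IsScalarTower.algebraMap_apply F
        (MvPolynomial (Clause n (d + 1)) F) (KF n d F), ← map_mul, algebraMap_eq,
        C_mul_monomial, mul_one]
    · rw [if_neg h2, if_neg (fun h => h2 h.1), mul_zero]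
  · rw [if_neg h1, if_neg (fun h => h1 h.2)]

/-- the monomials of the polynomial in the letters -/
theorem mem_support_tst (G : Sel n d L) (f : MvPolynomial (Clause n (d + 1)) F) (m : L →₀ ℕ) :
    m ∈ (tst G f).support ↔ ∃ μ ∈ f.support, (∀ C ∈ μ.support, adm G C) ∧ lx G μ = m := by
  classical
  rw [mem_support_iff, coeff_tst]
  constructor
  · intro h
    by_contra hcon
    push Not at hcon
    apply h
    rw [Finset.filter_eq_empty_iff.2 (fun μ hμ h1 => hcon μ hμ h1.1 h1.2), sum_empty, map_zero]
  · rintro ⟨μ, hμ, h1, h2⟩ h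
    have h3 := IsFractionRing.injective (MvPolynomial (Clause n (d + 1)) F) (KF n d F)
      (h.trans (map_zero _).symm)
    have h4 := congrArg (coeff μ) h3
    rw [coeff_sum, coeff_zero, sum_eq_single μ] at h4
    · rw [coeff_monomial, if_pos rfl] at h4
      exact (mem_support_iff.1 hμ) h4
    · intro μ' _ hne
      rw [coeff_monomial, if_neg hne]
    · intro h5
      exact absurd (mem_filter.2 ⟨hμ, h1, h2⟩) h5

/-- a monomial with variables in `U` -/
theorem rst_ne_zero {f : MvPolynomial (Clause n (d + 1)) F} {U : Finset (Clause n (d + 1))}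
    {μ : Clause n (d + 1) →₀ ℕ} (hμ : μ ∈ f.support) (hU : μ.support ⊆ U) : rst U f ≠ 0 := by
  classical
  intro h0
  rw [rst_eq] at h0
  have h2 := congrArg (coeff μ) h0
  rw [coeff_sum, coeff_zero, Finset.sum_eq_single μ] at h2
  · rw [coeff_monomial, if_pos rfl] at h2
    exact (mem_support_iff.1 hμ) h2
  · intro m' _ hne
    rw [coeff_monomial, if_neg hne]
  · intro h3
    exact absurd (mem_filter.2 ⟨hμ, hU⟩) h3

/-- an accepted input contains a monomial -/
theorem exists_mono {f : MvPolynomial (Clause n (d + 1)) F} {U : Finset (Clause n (d + 1))}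
    (h : rst U f ≠ 0) : ∃ μ ∈ f.support, μ.support ⊆ U := by
  classical
  by_contra hcon
  push Not at hcon
  apply h
  rw [rst_eq]
  exact sum_eq_zero fun μ hμ => absurd (mem_filter.1 hμ).2 (hcon μ (mem_filter.1 hμ).1)

end test

end Pool.XDF
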