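import Pool.Agent.XDF.Pairs
import Pool.Agent.XDF.Test
import Pool.Agent.XDE.Sat

/-!
# Tests for `k`-SAT with two sided error: the core inequality, with a union bound in every chunk
-/

set_option autoImplicit false

namespace Pool.XDF

open Finset Pool.XD Pool.XDA Pool.XDS Pool.XDE Pool.SatDet Pool.Agent.Helper41.CD
  Pool.Agent.Helper59.CDT

/-- Markov for the bad chunks -/
theorem chunk_prob {Ω α β : Type} [Fintype Ω] [Fintype α] (pr : Ω → ℝ) (h0 : ∀ ω, 0 ≤ pr ω)
    (hα : 1 ≤ Fintype.card α) (B : α → Finset β) {N : ℕ} (hB : ∀ i, (B i).card = N)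
    (acc : Ω → Prop) [DecidablePred acc] (bad : Ω → α → β → Prop)
    [∀ ω i y, Decidable (bad ω i y)] (A : Ω → Finset α)
    (hA : ∀ ω i, i ∈ A ω ↔ ∀ y ∈ B i, ¬ bad ω i y)
    [DecidablePred fun ω => acc ω ∧ Fintype.card α ≤ 2 * (A ω).card]
    {a b : ℝ} (hab : 4 * (N : ℝ) * b ≤ a) (hacc : a ≤ ∑ ω, if acc ω then pr ω else 0)
    (hbad : ∀ i, ∀ y ∈ B i, ∑ ω, (if bad ω i y then pr ω else 0) ≤ b) :
    a / 2 ≤ ∑ ω, if acc ω ∧ Fintype.card α ≤ 2 * (A ω).card then pr ω else 0 := by
  set c : ℝ := ((Fintype.card α : ℕ) : ℝ) with hc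
  have hc1 : (1 : ℝ) ≤ c := by rw [hc]; exact_mod_cast hα
  have e1 : ∀ ω, (if acc ω then pr ω else 0) -
      2 / c * ∑ i, ∑ y ∈ B i, (if bad ω i y then pr ω else 0) ≤
      if acc ω ∧ Fintype.card α ≤ 2 * (A ω).card then pr ω else 0 := by
    intro ω
    have hnn : ∀ i, ∀ y, 0 ≤ (if bad ω i y then pr ω else 0) := by
      intro i y
      split_ifs
      · exact h0 ω
      · exact le_rfl
    have e2 : 0 ≤ ∑ i, ∑ y ∈ B i, (if bad ω i y then pr ω else 0) :=
      sum_nonneg fun i _ => sum_nonneg fun y _ => hnn i y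
    have e2' : 0 ≤ 2 / c * ∑ i, ∑ y ∈ B i, (if bad ω i y then pr ω else 0) := by positivity
    by_cases h1 : acc ω
    · by_cases h2 : Fintype.card α ≤ 2 * (A ω).card
      · rw [if_pos h1, if_pos ⟨h1, h2⟩]
        linarith
      · rw [if_pos h1, if_neg fun h => h2 h.2]
        -- the bad chunks
        classical
        have h3 : (((A ω)ᶜ).card : ℝ) * pr ω ≤
            ∑ i, ∑ y ∈ B i, (if bad ω i y then pr ω else 0) := by
          rw [← nsmul_eq_mul, ← sum_const]
          calc ∑ _i ∈ (A ω)ᶜ, pr ω ≤ ∑ i ∈ (A ω)ᶜ, ∑ y ∈ B i, (if bad ω i y then pr ω else 0) := by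
                refine sum_le_sum fun i hi => ?_
                rw [mem_compl, hA] at hi
                push Not at hi
                obtain ⟨y, hy, hy2⟩ := hi
                have h5 := single_le_sum (f := fun y => if bad ω i y then pr ω else 0)
                  (fun y _ => hnn i y) hy
                simp only [if_pos hy2] at h5
                exact h5
            _ ≤ ∑ i, ∑ y ∈ B i, (if bad ω i y then pr ω else 0) :=
                sum_le_sum_of_subset_of_nonneg (subset_univ _) fun i _ _ =>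
                  sum_nonneg fun y _ => hnn i y
        have h4 : Fintype.card α ≤ 2 * ((A ω)ᶜ).card := by
          have h5 := card_compl_add_card (A ω)
          omega
        have h5 : c ≤ 2 * (((A ω)ᶜ).card : ℝ) := by
          rw [hc]
          exact_mod_cast h4
        have h6 : pr ω ≤ 2 / c * ∑ i, ∑ y ∈ B i, (if bad ω i y then pr ω else 0) := by
          rw [div_mul_eq_mul_div, le_div_iff₀ (by linarith)]
          have h7 := mul_le_mul_of_nonneg_right h5 (h0 ω)
          linarith
        linarith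
    · rw [if_neg h1, if_neg fun h => h1 h.1]
      linarith
  have e4 := sum_le_sum fun ω (_ : ω ∈ (univ : Finset Ω)) => e1 ω
  rw [sum_sub_distrib, ← mul_sum] at e4
  have e5 : ∑ ω, ∑ i, ∑ y ∈ B i, (if bad ω i y then pr ω else 0) ≤ c * (N * b) := by
    rw [sum_comm]
    calc ∑ i, ∑ ω, ∑ y ∈ B i, (if bad ω i y then pr ω else 0) ≤ ∑ _i : α, (N : ℝ) * b := by
          refine sum_le_sum fun i _ => ?_
          rw [sum_comm, ← hB i, ← nsmul_eq_mul, ← sum_const]
          exact sum_le_sum fun y hy => hbad i y hy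
      _ = c * (N * b) := by rw [sum_const, card_univ, nsmul_eq_mul]
  have e6 : 2 / c * ∑ ω, ∑ i, ∑ y ∈ B i, (if bad ω i y then pr ω else 0) ≤ 2 * (N * b) := by
    calc 2 / c * ∑ ω, ∑ i, ∑ y ∈ B i, (if bad ω i y then pr ω else 0) ≤ 2 / c * (c * (N * b)) :=
          mul_le_mul_of_nonneg_left e5 (by positivity)
      _ = 2 * (N * b) := by field_simp
  linarith

/-- pigeonhole for the chunks and the coordinates outside -/
theorem chunk_pigeon {g : ℕ} {Pr : Type} [Fintype Pr] [DecidableEq Pr] [Nonempty Pr]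
    (good : (Fin g → Pr) → Prop) [DecidablePred good] (A : (Fin g → Pr) → Finset (Fin g)) {a : ℝ}
    (ha : 0 < a) (h : a * Fintype.card (Fin g → Pr) ≤ ((univ.filter good).card : ℝ)) :
    ∃ A0 : Finset (Fin g), (∃ p, good p ∧ A p = A0) ∧ ∃ p0 : {i // i ∉ A0} → Pr,
      a * (Fintype.card Pr : ℝ) ^ A0.card ≤ 2 ^ g *
        ((univ.filter fun q : {i // i ∈ A0} → Pr =>
          good (fun i => if h : i ∈ A0 then q ⟨i, h⟩ else p0 ⟨i, h⟩) ∧
          A (fun i => if h : i ∈ A0 then q ⟨i, h⟩ else p0 ⟨i, h⟩) = A0).card : ℝ) := by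
  have hPr : (1 : ℝ) ≤ Fintype.card Pr := by
    exact_mod_cast Fintype.card_pos
  have hpos : (0 : ℝ) < a * Fintype.card (Fin g → Pr) := by
    have : (0 : ℝ) < Fintype.card (Fin g → Pr) := by exact_mod_cast Fintype.card_pos
    positivity
  -- the chunks
  obtain ⟨A0, hA0⟩ : ∃ A0 : Finset (Fin g), ((univ.filter good).card : ℝ) ≤
      2 ^ g * ((univ.filter fun p => good p ∧ A p = A0).card : ℝ) := by
    by_contra hcon
    push Not at hcon
    have h1 : (univ.filter good).card = ∑ A0 : Finset (Fin g),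
        (univ.filter fun p => good p ∧ A p = A0).card := by
      rw [card_eq_sum_card_fiberwise (f := A) (t := univ) (fun x _ => mem_coe.2 (mem_univ _))]
      refine sum_congr rfl fun A0 _ => ?_
      rw [filter_filter]
    have h2 : (∑ A0 : Finset (Fin g), (2 : ℝ) ^ g *
        ((univ.filter fun p => good p ∧ A p = A0).card : ℝ)) <
        ∑ _A0 : Finset (Fin g), ((univ.filter good).card : ℝ) :=
      sum_lt_sum_of_nonempty ⟨∅, mem_univ _⟩ fun A0 _ => hcon A0
    rw [← mul_sum, sum_const, card_univ, Fintype.card_finset, Fintype.card_fin, nsmul_eq_mul] at h2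
    rw [h1] at h2
    push_cast at h2
    exact lt_irrefl _ h2
  have hA1 : 0 < (univ.filter fun p => good p ∧ A p = A0).card := by
    by_contra hcon
    have h1 : (univ.filter fun p => good p ∧ A p = A0).card = 0 := by omega
    rw [h1, Nat.cast_zero, mul_zero] at hA0
    linarith
  obtain ⟨p1, hp1⟩ := card_pos.1 hA1
  refine ⟨A0, ⟨p1, (mem_filter.1 hp1).2⟩, ?_⟩
  -- the coordinates outside
  set glue : ({i // i ∈ A0} → Pr) → ({i // i ∉ A0} → Pr) → Fin g → Pr := fun q p0 i =>
    if h : i ∈ A0 then q ⟨i, h⟩ else p0 ⟨i, h⟩ with hglue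
  have hcount : (univ.filter fun p => good p ∧ A p = A0).card = ∑ p0 : {i // i ∉ A0} → Pr,
      (univ.filter fun q : {i // i ∈ A0} → Pr => good (glue q p0) ∧ A (glue q p0) = A0).card := by
    rw [card_eq_sum_card_fiberwise (f := fun p (i : {i // i ∉ A0}) => p i.1) (t := univ)
      (fun x _ => mem_coe.2 (mem_univ _))]
    refine sum_congr rfl fun p0 _ => ?_
    refine card_bij' (fun p _ (i : {i // i ∈ A0}) => p i.1) (fun q _ => glue q p0) ?_ ?_ ?_ ?_
    · intro p hp
      rw [mem_filter, mem_filter] at hp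
      obtain ⟨⟨-, h1⟩, h2⟩ := hp
      have h3 : glue (fun i => p i.1) p0 = p := by
        funext i
        simp only [hglue]
        split_ifs with h4
        · rfl
        · rw [← h2]
      rw [mem_filter, h3]
      exact ⟨mem_univ _, h1⟩
    · intro q hq
      rw [mem_filter] at hq
      rw [mem_filter, mem_filter]
      refine ⟨⟨mem_univ _, hq.2⟩, ?_⟩
      funext i
      simp only [hglue]
      rw [dif_neg i.2]
    · intro p hp
      rw [mem_filter, mem_filter] at hp
      obtain ⟨-, h2⟩ := hp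
      funext i
      simp only [hglue]
      split_ifs with h4
      · rfl
      · rw [← h2]
    · intro q _
      funext i
      simp only [hglue]
      rw [dif_pos i.2]
  have hout : Fintype.card ({i // i ∉ A0} → Pr) = Fintype.card Pr ^ (g - A0.card) := by
    rw [Fintype.card_fun]
    congr 1
    rw [Fintype.card_subtype_compl, Fintype.card_fin, Fintype.card_coe]
  have hle : A0.card ≤ g := by
    have := card_le_univ A0
    rwa [Fintype.card_fin] at this
  obtain ⟨p0, hp0⟩ : ∃ p0 : {i // i ∉ A0} → Pr, a * (Fintype.card Pr : ℝ) ^ A0.card ≤ 2 ^ g *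
      ((univ.filter fun q : {i // i ∈ A0} → Pr =>
        good (glue q p0) ∧ A (glue q p0) = A0).card : ℝ) := by
    by_contra hcon
    push Not at hcon
    have h2 : (∑ p0 : {i // i ∉ A0} → Pr, (2 : ℝ) ^ g *
        ((univ.filter fun q : {i // i ∈ A0} → Pr =>
          good (glue q p0) ∧ A (glue q p0) = A0).card : ℝ)) <
        ∑ _p0 : {i // i ∉ A0} → Pr, a * (Fintype.card Pr : ℝ) ^ A0.card :=
      sum_lt_sum_of_nonempty univ_nonempty fun p0 _ => hcon p0
    rw [← mul_sum, sum_const, card_univ, hout, nsmul_eq_mul] at h2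
    rw [hcount] at hA0
    push_cast at hA0 h2
    have h3 : (Fintype.card Pr : ℝ) ^ (g - A0.card) * (a * (Fintype.card Pr : ℝ) ^ A0.card) =
        a * Fintype.card (Fin g → Pr) := by
      rw [Fintype.card_fun, Fintype.card_fin]
      push_cast
      rw [mul_left_comm, ← pow_add, Nat.sub_add_cancel hle]
    linarith
  exact ⟨p0, hp0⟩

end Pool.XDF
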